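import Pool.Agent.Lib.MP_3ff0f8_gt.BR.Spec
import Pool.Agent.Lib.MP_3ff0f8_gt.T.IND

section
/-!
# MP_3ff0f8_gt, bridge, module BRH: coherence
-/
set_option autoImplicit false

namespace Pool.Agent.Lib.MP3ff0f8.BR

open Pool.Agent.Lib.MP3ff0f8.T Finset

namespace BRHM

variable {V E : Type}

theorem ch_iff {G : Gr V E} : ∀ (L : List (Dart E)) (a b : V), Ch G a L b ↔
    (∀ d ∈ L, d.1 ∈ G.X) ∧ a :: L.map (fun d => G.vt (rv d)) = L.map G.vt ++ [b] := by
  intro L
  induction L with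
  | nil => intro a b; simp [Ch]
  | cons d L ih =>
    intro a b
    simp only [Ch, ih, List.map_cons, List.cons_append, List.cons.injEq, List.mem_cons,
      forall_eq_or_imp]
    constructor
    · rintro ⟨h1, h2, h3, h4⟩
      exact ⟨⟨h1, h3⟩, h2.symm, h4⟩
    · rintro ⟨⟨h1, h3⟩, h2, h4⟩
      exact ⟨h1, h2.symm, h3, h4⟩

theorem ch_append {G : Gr V E} : ∀ (L L' : List (Dart E)) (a b : V), Ch G a (L ++ L') b ↔
    ∃ m, Ch G a L m ∧ Ch G m L' b := by
  intro L L'
  induction L with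
  | nil => intro a b; simp [Ch]
  | cons d L ih =>
    intro a b
    simp only [List.cons_append, Ch, ih]
    constructor
    · rintro ⟨h1, h2, m, h3, h4⟩
      exact ⟨m, ⟨h1, h2, h3⟩, h4⟩
    · rintro ⟨m, ⟨h1, h2, h3⟩, h4⟩
      exact ⟨h1, h2, m, h3, h4⟩

theorem ch_of_cyc {G : Gr V E} {s : Dart E} {r : List (Dart E)} (h : IsCyc G (s :: r)) :
    Ch G (G.vt (rv s)) r (G.vt s) := by
  rw [ch_iff]
  refine ⟨fun d hd => h.mem d (List.mem_cons_of_mem _ hd), ?_⟩
  have h1 := h.cl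
  simpa using h1

theorem ch_start {G : Gr V E} {L : List (Dart E)} {a b : V} (h : Ch G a L b) :
    a ∈ L.map G.vt ++ [b] := by
  rw [ch_iff] at h
  rw [← h.2]
  simp

theorem ch_end {G : Gr V E} {L : List (Dart E)} {a b : V} (h : Ch G a L b) :
    ∀ d ∈ L, G.vt (rv d) ∈ L.map G.vt ++ [b] := by
  intro d hd
  rw [ch_iff] at h
  rw [← h.2]
  refine List.mem_cons_of_mem _ ?_
  exact List.mem_map.2 ⟨d, hd, rfl⟩

theorem reach {N : ℕ} {G : Gr V E} {τ : V → Fin N} (H : SimpleGraph (Fin N)) :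
    ∀ (L : List (Dart E)) (a b : V), Ch G a L b →
      (∀ d ∈ L, H.Adj (τ (G.vt d)) (τ (G.vt (rv d)))) → H.Reachable (τ a) (τ b) := by
  intro L
  induction L with
  | nil =>
    intro a b h _
    have h1 : a = b := h
    rw [h1]
  | cons d L ih =>
    intro a b h hH
    obtain ⟨_, h2, h3⟩ := h
    rw [← h2]
    exact (hH d (by simp)).reachable.trans (ih _ _ h3 (fun x hx => hH x (by simp [hx])))

theorem edd {N : ℕ} (G : Gr V E) (τ : V → Fin N) (d : Dart E) :
    ed G τ d.1 = s(τ (G.vt d), τ (G.vt (rv d))) := by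
  obtain ⟨e, b⟩ := d
  cases b
  · rfl
  · exact Sym2.eq_swap

theorem mem_es [DecidableEq E] (hA : SpecBRA) {N : ℕ} {G : Gr V E} {τ : V → Fin N} (h : Tr G τ)
    {c : List (Dart E)} (hc : ∀ d ∈ c, d.1 ∈ G.X) {e : E} (he : e ∈ G.X) :
    ed G τ e ∈ es G τ c ↔ e ∈ c.map Prod.fst := by
  unfold es
  rw [mem_image]
  constructor
  · rintro ⟨f, hf, hfe⟩
    rw [List.mem_toFinset] at hf
    obtain ⟨d, hd, rfl⟩ := List.mem_map.1 hf
    rw [← hA.edi h d.1 (hc d hd) e he hfe]
    exact hf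
  · intro he'
    exact ⟨e, List.mem_toFinset.2 he', rfl⟩

theorem es_congr [DecidableEq E] {N : ℕ} {G : Gr V E} {τ : V → Fin N} {c c' : List (Dart E)}
    (h : ∀ e, e ∈ c.map Prod.fst ↔ e ∈ c'.map Prod.fst) : es G τ c = es G τ c' := by
  unfold es
  congr 1
  ext e
  rw [List.mem_toFinset, List.mem_toFinset]
  exact h e

/-- adjacency in the graph of a part of the edges of a cycle -/
theorem adj_of [DecidableEq E] (hA : SpecBRA) {N : ℕ} {G : Gr V E} {τ : V → Fin N} (h : Tr G τ)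
    {c : List (Dart E)} (hc : ∀ d ∈ c, d.1 ∈ G.X) (Z : Finset (Sym2 (Fin N))) {d : Dart E}
    (hd : d ∈ c) (hZ : ed G τ d.1 ∉ Z) :
    (SimpleGraph.fromEdgeSet ((es G τ c \ Z : Finset (Sym2 (Fin N))) : Set (Sym2 (Fin N)))).Adj
      (τ (G.vt d)) (τ (G.vt (rv d))) := by
  rw [SimpleGraph.fromEdgeSet_adj]
  refine ⟨?_, (hA.adj h d (hc d hd)).ne⟩
  rw [mem_coe, mem_sdiff, ← edd]
  exact ⟨(mem_es hA h hc (hc d hd)).2 (List.mem_map.2 ⟨d, hd, rfl⟩), hZ⟩

/-- the edges of the graph of a part of the edges of a cycle -/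
theorem of_adj [DecidableEq E] {N : ℕ} {G : Gr V E} {τ : V → Fin N}
    {c : List (Dart E)} (Z : Finset (Sym2 (Fin N))) {i j : Fin N}
    (hij : (SimpleGraph.fromEdgeSet
      ((es G τ c \ Z : Finset (Sym2 (Fin N))) : Set (Sym2 (Fin N)))).Adj i j) :
    ∃ d ∈ c, ed G τ d.1 ∉ Z ∧ ((τ (G.vt d) = i ∧ τ (G.vt (rv d)) = j) ∨
      (τ (G.vt d) = j ∧ τ (G.vt (rv d)) = i)) := by
  rw [SimpleGraph.fromEdgeSet_adj, mem_coe, mem_sdiff] at hij
  obtain ⟨⟨h1, h2⟩, _⟩ := hij
  unfold es at h1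
  obtain ⟨e, he, h3⟩ := mem_image.1 h1
  obtain ⟨d, hd, rfl⟩ := List.mem_map.1 (List.mem_toFinset.1 he)
  refine ⟨d, hd, by rw [h3]; exact h2, ?_⟩
  rw [edd] at h3
  exact Sym2.eq_iff.1 h3

theorem reach_closed {N : ℕ} (H : SimpleGraph (Fin N)) (K : Fin N → Prop)
    (hK : ∀ i j, H.Adj i j → K i → K j) {a b : Fin N} (ha : K a) (h : H.Reachable a b) : K b := by
  obtain ⟨w⟩ := h
  induction w with
  | nil => exact ha
  | cons hadj _ ih => exact ih (hK _ _ hadj ha)

theorem main [DecidableEq E] (hA : SpecBRA) {N : ℕ} {G : Gr V E} {τ : V → Fin N} (h : Tr G τ)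
    {s t : Dart E} {r : List (Dart E)} (hc : IsCyc G (s :: r)) (ht : t.1 ∈ G.X)
    (hst : s.1 ≠ t.1) :
    DL.coh (τ (G.vt s)) (τ (G.vt (rv s))) (τ (G.vt t)) (τ (G.vt (rv t))) (es G τ (s :: r)) =
      cc s t (s :: r) := by
  classical
  have hsX : s.1 ∈ G.X := hc.mem s (by simp)
  have hnd := hc.nde
  simp only [List.map_cons, List.nodup_cons] at hnd
  have hrs : rv s ∉ s :: r := by
    intro hm
    rcases List.mem_cons.1 hm with hm | hm
    · exact CYCM.rv_ne s hm
    · exact hnd.1 (List.mem_map.2 ⟨rv s, hm, rfl⟩)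
  have hcc : cc s t (s :: r) = if t ∈ s :: r then 1 else 0 := by
    unfold cc
    simp [hrs]
  rw [hcc]
  unfold DL.coh
  rw [← edd, ← edd]
  by_cases htc : t.1 ∈ (s :: r).map Prod.fst
  swap
  · rw [if_neg, if_neg]
    · intro hm
      exact htc (List.mem_map.2 ⟨t, hm, rfl⟩)
    · rintro ⟨_, h2, _⟩
      exact htc ((mem_es hA h hc.mem ht).1 h2)
  have h1 : ed G τ s.1 ∈ es G τ (s :: r) := (mem_es hA h hc.mem hsX).2 (by simp)
  have h2 : ed G τ t.1 ∈ es G τ (s :: r) := (mem_es hA h hc.mem ht).2 htc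
  obtain ⟨t', ht', htt⟩ := List.mem_map.1 htc
  have ht's : t' ∈ r := by
    rcases List.mem_cons.1 ht' with h3 | h3
    · exact absurd (by rw [← h3]; exact htt) hst
    · exact h3
  obtain ⟨c₁, c₂, hr⟩ := List.mem_iff_append.1 ht's
  subst hr
  have hch := ch_of_cyc hc
  obtain ⟨m, hch1, hch2'⟩ := (ch_append _ _ _ _).1 hch
  obtain ⟨_, hm, hch2⟩ := hch2'
  subst hm
  -- edges of darts of `c₁` and `c₂` are not the two edges
  have hnd2 := hnd.2
  rw [List.map_append, List.map_cons, List.nodup_append] at hnd2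
  obtain ⟨hn1, hn2, hn3⟩ := hnd2
  rw [List.nodup_cons] at hn2
  have hZ : ∀ d ∈ c₁ ++ c₂, ed G τ d.1 ∉ ({ed G τ s.1, ed G τ t.1} : Finset (Sym2 (Fin N))) := by
    intro d hd hm
    have hdc : d ∈ s :: (c₁ ++ t' :: c₂) := by
      rcases List.mem_append.1 hd with hd | hd <;> simp [hd]
    have hdX := hc.mem d hdc
    rcases mem_insert.1 hm with hm | hm
    · have h4 := hA.edi h _ hdX _ hsX hm
      apply hnd.1
      rw [← h4]
      rcases List.mem_append.1 hd with hd | hd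
      · exact List.mem_map.2 ⟨d, by simp [hd], rfl⟩
      · exact List.mem_map.2 ⟨d, by simp [hd], rfl⟩
    · have h4 := hA.edi h _ hdX _ ht (mem_singleton.1 hm)
      rw [← htt] at h4
      rcases List.mem_append.1 hd with hd | hd
      · exact hn3 d.1 (List.mem_map.2 ⟨d, hd, rfl⟩) t'.1 (by simp) h4
      · apply hn2.1
        rw [← h4]
        exact List.mem_map.2 ⟨d, hd, rfl⟩
  by_cases htt' : t' = t
  · subst htt'
    rw [if_pos, if_pos ht']
    refine ⟨h1, h2, ?_⟩
    unfold DL.Rch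
    refine reach _ c₁ _ _ hch1 ?_
    intro d hd
    exact adj_of hA h hc.mem _ (by simp [hd]) (hZ d (by simp [hd]))
  · have htr : t' = rv t := by
      rcases CYCM.fst_eq htt with h3 | h3
      · exact absurd h3 htt'
      · exact h3
    have htn : t ∉ s :: (c₁ ++ t' :: c₂) := by
      intro hm
      exact htt' (List.inj_on_of_nodup_map hc.nde ht' hm htt)
    rw [if_neg, if_neg htn]
    rintro ⟨_, _, h3⟩
    unfold DL.Rch at h3
    -- vertices of `c₁` and start of `t'`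
    have hndv := hc.ndv
    rw [List.map_cons, List.map_append, List.map_cons, List.nodup_cons, List.nodup_append] at hndv
    obtain ⟨hv1, hv2, hv3, hv4⟩ := hndv
    rw [List.nodup_cons] at hv3
    have hsep : ∀ u ∈ c₁.map G.vt ++ [G.vt t'], ∀ v ∈ c₂.map G.vt ++ [G.vt s], u ≠ v := by
      intro u hu v hv huv
      subst huv
      rcases List.mem_append.1 hu with hu | hu
      · rcases List.mem_append.1 hv with hv | hv
        · exact hv4 u hu u (List.mem_cons_of_mem _ hv) rfl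
        · rw [List.mem_singleton] at hv
          exact hv1 (by rw [← hv]; exact List.mem_append_left _ hu)
      · rw [List.mem_singleton] at hu
        rcases List.mem_append.1 hv with hv | hv
        · exact hv3.1 (by rw [← hu]; exact hv)
        · rw [List.mem_singleton] at hv
          exact hv1 (by rw [← hv, hu]; simp)
    have hdart1 : ∀ u ∈ c₁.map G.vt ++ [G.vt t'], ∃ d : Dart E, d.1 ∈ G.X ∧ G.vt d = u := by
      intro u hu
      rcases List.mem_append.1 hu with hu | hu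
      · obtain ⟨d, hd, rfl⟩ := List.mem_map.1 hu
        exact ⟨d, hc.mem d (by simp [hd]), rfl⟩
      · rw [List.mem_singleton] at hu
        exact ⟨t', hc.mem t' (by simp), hu.symm⟩
    have hdart2 : ∀ u ∈ c₂.map G.vt ++ [G.vt s], ∃ d : Dart E, d.1 ∈ G.X ∧ G.vt d = u := by
      intro u hu
      rcases List.mem_append.1 hu with hu | hu
      · obtain ⟨d, hd, rfl⟩ := List.mem_map.1 hu
        exact ⟨d, hc.mem d (by simp [hd]), rfl⟩
      · rw [List.mem_singleton] at hu
        exact ⟨s, hc.mem s (by simp), hu.symm⟩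
    have hsepτ : ∀ u ∈ c₁.map G.vt ++ [G.vt t'], ∀ v ∈ c₂.map G.vt ++ [G.vt s], τ u ≠ τ v := by
      intro u hu v hv huv
      obtain ⟨d, hd, rfl⟩ := hdart1 u hu
      obtain ⟨d', hd', rfl⟩ := hdart2 v hv
      exact hsep _ hu _ hv (h.inj d d' hd hd' huv)
    have hK := reach_closed _ (fun i => ∃ u ∈ c₁.map G.vt ++ [G.vt t'], τ u = i) ?_ ?_ h3
    · obtain ⟨u, hu, hut⟩ := hK
      refine hsepτ u hu (G.vt t) ?_ hut
      have h5 := ch_start hch2
      rw [htr, CYCM.rv_rv] at h5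
      exact h5
    · intro i j hij hi
      obtain ⟨d, hd, hdZ, hdij⟩ := of_adj _ hij
      have hds : d ∈ c₁ ∨ d ∈ c₂ := by
        rcases List.mem_cons.1 hd with hd | hd
        · exfalso
          apply hdZ
          rw [hd]
          simp
        · rcases List.mem_append.1 hd with hd | hd
          · exact Or.inl hd
          · rcases List.mem_cons.1 hd with hd | hd
            · exfalso
              apply hdZ
              rw [hd, htt]
              simp
            · exact Or.inr hd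
      obtain ⟨u, hu, hui⟩ := hi
      rcases hds with hds | hds
      · have e1 : G.vt d ∈ c₁.map G.vt ++ [G.vt t'] :=
          List.mem_append_left _ (List.mem_map.2 ⟨d, hds, rfl⟩)
        have e2 := ch_end hch1 d hds
        rcases hdij with ⟨_, h6⟩ | ⟨h6, _⟩
        · exact ⟨_, e2, h6⟩
        · exact ⟨_, e1, h6⟩
      · exfalso
        have e1 : G.vt d ∈ c₂.map G.vt ++ [G.vt s] :=
          List.mem_append_left _ (List.mem_map.2 ⟨d, hds, rfl⟩)
        have e2 := ch_end hch2 d hds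
        rcases hdij with ⟨h6, _⟩ | ⟨_, h6⟩
        · exact hsepτ _ hu _ e1 (hui.trans h6.symm)
        · exact hsepτ _ hu _ e2 (hui.trans h6.symm)
    · exact ⟨_, ch_start hch1, rfl⟩

/-- rotation and reversal -/
theorem norm {G : Gr V E} {c : List (Dart E)} (hc : IsCyc G c) {s : Dart E} (hs : s ∈ c) :
    ∃ r, IsCyc G (s :: r) ∧ ∀ x, x ∈ s :: r ↔ x ∈ c := by
  obtain ⟨A, B, hAB⟩ := List.mem_iff_append.1 hs
  refine ⟨B ++ A, ?_, ?_⟩
  · have h1 := CYCM.rot A.length hc
    rw [hAB, List.rotate_append_length_eq] at h1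
    simpa using h1
  · intro x
    rw [hAB]
    simp only [List.mem_cons, List.mem_append]
    tauto

theorem mem_rvc {c : List (Dart E)} {x : Dart E} : x ∈ rvc c ↔ rv x ∈ c := by
  unfold rvc
  rw [List.mem_reverse, List.mem_map]
  constructor
  · rintro ⟨d, hd, rfl⟩
    rw [CYCM.rv_rv]
    exact hd
  · intro h
    exact ⟨_, h, CYCM.rv_rv x⟩

theorem coh [DecidableEq E] (hA : SpecBRA) {N : ℕ} {G : Gr V E} {τ : V → Fin N} (h : Tr G τ)
    (c : List (Dart E)) (hc : IsCyc G c) (s t : Dart E) (hs : s.1 ∈ G.X) (ht : t.1 ∈ G.X)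
    (hst : s.1 ≠ t.1) :
    DL.coh (τ (G.vt s)) (τ (G.vt (rv s))) (τ (G.vt t)) (τ (G.vt (rv t))) (es G τ c) =
      cc s t c := by
  classical
  by_cases h1 : s ∈ c
  · obtain ⟨r, hr1, hr2⟩ := norm hc h1
    have h2 := main hA h hr1 ht hst
    rw [es_congr (c' := c)] at h2
    · rw [h2]
      unfold cc
      simp only [hr2]
    · intro e
      simp only [List.mem_map, hr2]
  by_cases h1' : rv s ∈ c
  · have h3 : s ∈ rvc c := mem_rvc.2 h1'
    obtain ⟨r, hr1, hr2⟩ := norm (CYCM.rev hc) h3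
    have h2 := main hA h hr1 ht hst
    rw [es_congr (c' := c)] at h2
    · rw [h2]
      unfold cc
      simp only [hr2, mem_rvc, CYCM.rv_rv]
      rw [add_comm]
    · intro e
      simp only [List.mem_map, hr2, mem_rvc]
      constructor
      · rintro ⟨x, hx, rfl⟩
        exact ⟨_, hx, rfl⟩
      · rintro ⟨x, hx, rfl⟩
        exact ⟨rv x, by rw [CYCM.rv_rv]; exact hx, rfl⟩
  · unfold DL.coh
    rw [← edd, ← edd, if_neg]
    · unfold cc
      simp [h1, h1']
    · rintro ⟨h2, _⟩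
      rw [mem_es hA h hc.mem hs] at h2
      obtain ⟨x, hx, hxs⟩ := List.mem_map.1 h2
      rcases CYCM.fst_eq hxs with h3 | h3
      · exact h1 (h3 ▸ hx)
      · exact h1' (h3 ▸ hx)

theorem eq1 [DecidableEq E] (hA : SpecBRA) {N : ℕ} {G : Gr V E} {τ : V → Fin N} (h : Tr G τ)
    (c : List (Dart E)) (hc : IsCyc G c) (s : Dart E) (hs : s.1 ∈ G.X) :
    DL.coh (τ (G.vt s)) (τ (G.vt (rv s))) (τ (G.vt s)) (τ (G.vt (rv s))) (es G τ c) =
      xe s.1 c := by
  classical
  unfold DL.coh xe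
  rw [← edd]
  by_cases h1 : s.1 ∈ c.map Prod.fst
  swap
  · rw [if_neg, if_neg h1]
    rintro ⟨h2, _⟩
    exact h1 ((mem_es hA h hc.mem hs).1 h2)
  have h2 : ed G τ s.1 ∈ es G τ c := (mem_es hA h hc.mem hs).2 h1
  rw [if_pos, if_pos h1]
  refine ⟨h2, h2, ?_⟩
  obtain ⟨x, hx, hxs⟩ := List.mem_map.1 h1
  obtain ⟨r, hr1, hr2⟩ := norm hc hx
  have hch := ch_of_cyc hr1
  have hZ : ∀ d ∈ r, ed G τ d.1 ∉ ({ed G τ s.1, ed G τ s.1} : Finset (Sym2 (Fin N))) := by
    intro d hd hm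
    have hdX := hr1.mem d (List.mem_cons_of_mem _ hd)
    have hm' : ed G τ d.1 = ed G τ s.1 := by simpa using hm
    have h4 := hA.edi h _ hdX _ hs hm'
    have hnd := hr1.nde
    rw [List.map_cons, List.nodup_cons] at hnd
    apply hnd.1
    rw [hxs, ← h4]
    exact List.mem_map.2 ⟨d, hd, rfl⟩
  have hre : (SimpleGraph.fromEdgeSet ((es G τ c \ {ed G τ s.1, ed G τ s.1} :
      Finset (Sym2 (Fin N))) : Set (Sym2 (Fin N)))).Reachable (τ (G.vt (rv x))) (τ (G.vt x)) := by
    refine reach _ r _ _ hch ?_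
    intro d hd
    exact adj_of hA h hc.mem _ ((hr2 d).1 (List.mem_cons_of_mem _ hd)) (hZ d hd)
  unfold DL.Rch
  rcases CYCM.fst_eq hxs with h3 | h3
  · rw [h3] at hre
    exact hre
  · rw [h3, CYCM.rv_rv] at hre
    exact hre.symm

theorem eq2 [DecidableEq E] (hA : SpecBRA) {N : ℕ} {G : Gr V E} {τ : V → Fin N} (h : Tr G τ)
    (c : List (Dart E)) (hc : IsCyc G c) (s : Dart E) (hs : s.1 ∈ G.X) :
    DL.coh (τ (G.vt s)) (τ (G.vt (rv s))) (τ (G.vt (rv s))) (τ (G.vt s)) (es G τ c) =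
      xe s.1 c := by
  classical
  unfold DL.coh xe
  have h0 : s(τ (G.vt (rv s)), τ (G.vt s)) = ed G τ s.1 := by
    rw [edd, Sym2.eq_swap]
  rw [h0, ← edd]
  by_cases h1 : s.1 ∈ c.map Prod.fst
  · have h2 : ed G τ s.1 ∈ es G τ c := (mem_es hA h hc.mem hs).2 h1
    rw [if_pos, if_pos h1]
    exact ⟨h2, h2, SimpleGraph.Reachable.refl _⟩
  · rw [if_neg, if_neg h1]
    rintro ⟨h2, _⟩
    exact h1 ((mem_es hA h hc.mem hs).1 h2)

end BRHM

theorem specBRH (hA : SpecBRA) : SpecBRH where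
  coh := fun h => BRHM.coh hA h
  eq1 := fun h => BRHM.eq1 hA h
  eq2 := fun h => BRHM.eq2 hA h

end Pool.Agent.Lib.MP3ff0f8.BR
end

section
/-!
# MP_3ff0f8_gt, bridge, module BRC: cycles of `G` give cycles of `sg G τ`
-/
namespace Pool.Agent.Lib.MP3ff0f8.BR

open Pool.Agent.Lib.MP3ff0f8.T Finset

namespace BRCM

variable {V E : Type}

theorem wk (hA : SpecBRA) {N : ℕ} {G : Gr V E} {τ : V → Fin N} (h : Tr G τ) :
    ∀ (L : List (Dart E)) (a b : V), Ch G a L b →
      ∃ w : (sg G τ).Walk (τ a) (τ b), w.edges = L.map (fun d => ed G τ d.1) ∧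
        w.support = (a :: L.map (fun d => G.vt (rv d))).map τ := by
  intro L
  induction L with
  | nil =>
    intro a b hc
    rw [BRHM.ch_iff] at hc
    have hab : a = b := by simpa using hc.2
    subst hab
    exact ⟨SimpleGraph.Walk.nil, rfl, rfl⟩
  | cons d L ih =>
    intro a b hc
    rw [BRHM.ch_iff] at hc
    have h1 : a = G.vt d := by simpa using congrArg (fun l => l.head?) hc.2
    subst h1
    have h2 : Ch G (G.vt (rv d)) L b := by
      rw [BRHM.ch_iff]
      refine ⟨fun x hx => hc.1 x (List.mem_cons_of_mem _ hx), ?_⟩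
      simpa using hc.2
    obtain ⟨w, hw, hs⟩ := ih _ _ h2
    refine ⟨SimpleGraph.Walk.cons (hA.adj h d (hc.1 d (by simp))) w, ?_, ?_⟩
    · rw [SimpleGraph.Walk.edges_cons, hw, List.map_cons, hA.edd h d]
    · rw [SimpleGraph.Walk.support_cons, hs]
      rfl

theorem three {N : ℕ} {G : Gr V E} {τ : V → Fin N} (h : Tr G τ) (c : List (Dart E))
    (hc : IsCyc G c) : 3 ≤ c.length := by
  match c, hc with
  | [], hc => exact absurd rfl hc.ne
  | [s], hc =>
    have h1 : G.vt (rv s) = G.vt s := by simpa using hc.cl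
    exact absurd h1.symm (h.L s (hc.mem s (by simp)))
  | [s, t], hc =>
    have h1 : G.vt (rv s) = G.vt t ∧ G.vt (rv t) = G.vt s := by simpa using hc.cl
    have h2 : s.1 ≠ t.1 := by
      have := hc.nde
      simpa using this
    refine absurd ?_ h2
    refine h.P s (rv t) (hc.mem s (by simp)) (hc.mem t (by simp)) h1.2.symm ?_
    rw [h1.1]
    simp [rv]
  | _ :: _ :: _ :: _, _ => simp

theorem cyc (hA : SpecBRA) [DecidableEq E] {N : ℕ} {G : Gr V E} {τ : V → Fin N} (h : Tr G τ)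
    (c : List (Dart E)) (hc : IsCyc G c) : DL.IsCyc (sg G τ) (es G τ c) := by
  match c, hc with
  | [], hc => exact absurd rfl hc.ne
  | s :: r, hc =>
    obtain ⟨w, hw, hs⟩ := wk hA h r _ _ (BRHM.ch_of_cyc hc)
    have hsX := hc.mem s (by simp)
    refine ⟨_, SimpleGraph.Walk.cons (hA.adj h s hsX) w, ?_, ?_⟩
    · rw [SimpleGraph.Walk.cons_isCycle_iff]
      constructor
      · rw [SimpleGraph.Walk.isPath_def, hs]
        have h1 : (G.vt (rv s) :: r.map (fun d => G.vt (rv d))) =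
            ((s :: r).map G.vt).rotate 1 := hc.cl
        rw [h1]
        refine List.Nodup.map_on ?_ ((List.nodup_rotate).2 hc.ndv)
        intro x hx y hy hxy
        rw [List.mem_rotate, List.mem_map] at hx hy
        obtain ⟨d, hd, rfl⟩ := hx
        obtain ⟨d', hd', rfl⟩ := hy
        exact h.inj d d' (hc.mem d hd) (hc.mem d' hd') hxy
      · rw [← hA.edd h s, hw, List.mem_map]
        rintro ⟨d, hd, hds⟩
        have h1 := hA.edi h _ (hc.mem d (List.mem_cons_of_mem _ hd)) _ hsX hds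
        have h2 := hc.nde
        rw [List.map_cons, List.nodup_cons] at h2
        exact h2.1 (h1 ▸ List.mem_map_of_mem hd)
    · rw [SimpleGraph.Walk.edges_cons, hw, ← hA.edd h s]
      unfold es
      ext z
      simp only [List.mem_toFinset, mem_image, List.mem_cons, List.mem_map, List.map_cons]
      constructor
      · rintro (h1 | ⟨d, hd, h1⟩)
        · exact ⟨s.1, Or.inl rfl, h1.symm⟩
        · exact ⟨d.1, Or.inr ⟨d, hd, rfl⟩, h1⟩
      · rintro ⟨e, h1 | ⟨d, hd, h1⟩, h2⟩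
        · exact Or.inl (by rw [← h2, h1])
        · exact Or.inr ⟨d, hd, by rw [h1, h2]⟩

end BRCM

theorem specBRC (hA : SpecBRA) : SpecBRC where
  three := fun h => BRCM.three h
  cyc := fun h => BRCM.cyc hA h

end Pool.Agent.Lib.MP3ff0f8.BR
end
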