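import Pool.Agent.Lib.MP_3ff0f8_gt.BR.Spec
import Pool.Agent.Lib.MP_3ff0f8_gt.BR.BRC

/-!
# MP_3ff0f8_gt, bridge, module BRD: `D₄` minors
-/

set_option autoImplicit false
set_option linter.unusedSectionVars false

namespace Pool.Agent.Lib.MP3ff0f8.BR

open Pool.Agent.Lib.MP3ff0f8.T Finset

namespace BRDM

variable {V E : Type}

/-! ### edges of a tree -/

theorem tree_card {N : ℕ} (F : SimpleGraph (Fin N)) (X : Finset (Fin N))
    (inX : ∀ v w, F.Adj v w → v ∈ X) (conn : ∀ v ∈ X, ∀ w ∈ X, F.Reachable v w)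
    (acyc : F.IsAcyclic) (hX : X.Nonempty) (Z : Finset (Sym2 (Fin N)))
    (hZ : ∀ z ∈ Z, z ∈ F.edgeSet) : Z.card + 1 ≤ X.card := by
  classical
  obtain ⟨x0, hx0⟩ := hX
  have hne : Nonempty (X : Set (Fin N)) := ⟨⟨x0, hx0⟩⟩
  have hpre : (F.induce (X : Set (Fin N))).Preconnected := by
    rintro ⟨v, hv⟩ ⟨w, hw⟩
    have h1 := BRHM.reach_closed F
      (fun j => ∃ h : j ∈ (X : Set (Fin N)), (F.induce (X : Set (Fin N))).Reachable ⟨v, hv⟩ ⟨j, h⟩)
      ?_ ⟨hv, SimpleGraph.Reachable.refl _⟩ (conn v hv w hw)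
    · obtain ⟨_, h2⟩ := h1
      exact h2
    · rintro i j hij ⟨hi, h2⟩
      have hj : j ∈ (X : Set (Fin N)) := inX j i hij.symm
      refine ⟨hj, h2.trans ?_⟩
      have hadj : (F.induce (X : Set (Fin N))).Adj ⟨i, hi⟩ ⟨j, hj⟩ := hij
      exact hadj.reachable
  have htree : (F.induce (X : Set (Fin N))).IsTree := ⟨⟨hpre⟩, acyc.induce _⟩
  have hcard := htree.card_edgeFinset
  have h2 : Z ⊆ (F.induce (X : Set (Fin N))).edgeFinset.image (Sym2.map Subtype.val) := by
    intro z hz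
    have h3 := hZ z hz
    induction z using Sym2.ind with
    | _ i j =>
      rw [SimpleGraph.mem_edgeSet] at h3
      rw [mem_image]
      have hi : i ∈ (X : Set (Fin N)) := inX i j h3
      have hj : j ∈ (X : Set (Fin N)) := inX j i h3.symm
      refine ⟨s(⟨i, hi⟩, ⟨j, hj⟩), ?_, rfl⟩
      rw [SimpleGraph.mem_edgeFinset, SimpleGraph.mem_edgeSet]
      exact h3
  have h3 := (card_le_card h2).trans card_image_le
  have h4 : Fintype.card (X : Set (Fin N)) = X.card := by simp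
  omega

/-! ### the minor -/

open Classical in
/-- branch sets -/
noncomputable def BB {N : ℕ} (G : Gr V E) (τ : V → Fin N) (X : Finset (Fin N)) : Finset V :=
  ((G.X ×ˢ (univ : Finset Bool)).filter fun d => τ (G.vt d) ∈ X).image G.vt

theorem mem_BB {N : ℕ} {G : Gr V E} {τ : V → Fin N} {X : Finset (Fin N)} {v : V} :
    v ∈ BB G τ X ↔ ∃ d : Dart E, d.1 ∈ G.X ∧ τ (G.vt d) ∈ X ∧ G.vt d = v := by
  classical
  unfold BB
  rw [mem_image]
  constructor
  · rintro ⟨d, hd, rfl⟩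
    rw [mem_filter, mem_product] at hd
    exact ⟨d, hd.1.1, hd.2, rfl⟩
  · rintro ⟨d, h1, h2, rfl⟩
    exact ⟨d, by rw [mem_filter, mem_product]; exact ⟨⟨h1, mem_univ _⟩, h2⟩, rfl⟩

open Classical in
/-- tree edges -/
noncomputable def TT {N : ℕ} (G : Gr V E) (τ : V → Fin N) (F : SimpleGraph (Fin N)) : Finset E :=
  G.X.filter fun e => ed G τ e ∈ F.edgeSet

theorem mem_TT {N : ℕ} {G : Gr V E} {τ : V → Fin N} {F : SimpleGraph (Fin N)} {e : E} :
    e ∈ TT G τ F ↔ e ∈ G.X ∧ ed G τ e ∈ F.edgeSet := by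
  classical
  unfold TT
  rw [mem_filter]

section

variable [DecidableEq V] [DecidableEq E] {N : ℕ} {G : Gr V E} {τ : V → Fin N}

theorem ends (D : DL.D4M (sg G τ)) (i : Fin 4) (d : Dart E) (hd : d.1 ∈ TT G τ (D.T i)) :
    G.vt d ∈ BB G τ (D.X i) := by
  rw [mem_TT, BRHM.edd, SimpleGraph.mem_edgeSet] at hd
  rw [mem_BB]
  exact ⟨d, hd.1, D.inX i _ _ hd.2, rfl⟩

theorem conn (h : Tr G τ) (D : DL.D4M (sg G τ)) (i : Fin 4) :
    Conn G (TT G τ (D.T i)) (BB G τ (D.X i)) := by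
  intro S hS hne hSB
  by_contra hcon
  push Not at hcon
  obtain ⟨a, ha⟩ := hne
  have hex : ∃ b ∈ BB G τ (D.X i), b ∉ S := by
    by_contra hc
    push Not at hc
    exact hSB (Subset.antisymm hS hc)
  obtain ⟨b, hb, hbS⟩ := hex
  obtain ⟨da, ha1, ha2, ha3⟩ := mem_BB.1 (hS ha)
  obtain ⟨db, hb1, hb2, hb3⟩ := mem_BB.1 hb
  have h1 := BRHM.reach_closed (D.T i) (fun j => ∃ u ∈ S, τ u = j) ?_
    ⟨a, ha, by rw [ha3]⟩ (D.conn i _ ha2 _ hb2)
  · obtain ⟨u, hu, hub⟩ := h1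
    obtain ⟨du, hu1, hu2, hu3⟩ := mem_BB.1 (hS hu)
    rw [← hu3] at hub
    have h2 := h.inj du db hu1 hb1 hub
    apply hbS
    rw [← hb3, ← h2, hu3]
    exact hu
  · rintro j k hjk ⟨u, hu, huj⟩
    obtain ⟨_, d, hd, h3, h4⟩ := D.sub i hjk
    obtain ⟨du, hu1, hu2, hu3⟩ := mem_BB.1 (hS hu)
    have h5 : G.vt d = u := by
      rw [← hu3]
      refine h.inj d du hd hu1 ?_
      rw [h3, hu3, huj]
    have hdT : d.1 ∈ TT G τ (D.T i) := by
      rw [mem_TT, BRHM.edd, h3, h4, SimpleGraph.mem_edgeSet]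
      exact ⟨hd, hjk⟩
    have h6 := hcon d hdT (by rw [h5]; exact hu) (ends D i (rv d) hdT)
    exact ⟨_, h6, h4⟩

theorem card (hA : SpecBRA) (hTRE : SpecTRE) (h : Tr G τ) (D : DL.D4M (sg G τ)) (i : Fin 4) :
    (TT G τ (D.T i)).card + 1 = (BB G τ (D.X i)).card := by
  classical
  have h1 : (BB G τ (D.X i)).card ≤ (TT G τ (D.T i)).card + 1 := by
    refine hTRE.le _ _ (conn h D i) ?_ (ends D i)
    obtain ⟨d, hd1, hd2⟩ := h.sur (D.p i false)
    exact ⟨G.vt d, mem_BB.2 ⟨d, hd1, by rw [hd2]; exact D.pX i false, rfl⟩⟩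
  have h2 : ((TT G τ (D.T i)).image (ed G τ)).card + 1 ≤ (D.X i).card := by
    refine tree_card (D.T i) (D.X i) (D.inX i) (D.conn i) (D.acyc i) ⟨_, D.pX i false⟩ _ ?_
    intro z hz
    obtain ⟨e, he, rfl⟩ := mem_image.1 hz
    exact (mem_TT.1 he).2
  rw [card_image_of_injOn] at h2
  · have h3 : (D.X i).card ≤ (BB G τ (D.X i)).card := by
      refine le_trans (card_le_card ?_) (card_image_le (f := τ))
      intro j hj
      obtain ⟨d, hd1, hd2⟩ := h.sur j
      exact mem_image.2 ⟨G.vt d, mem_BB.2 ⟨d, hd1, by rw [hd2]; exact hj, rfl⟩, hd2⟩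
    omega
  · intro e he e' he' hee
    exact hA.edi h e (mem_TT.1 he).1 e' (mem_TT.1 he').1 hee

theorem BB_disj (D : DL.D4M (sg G τ)) {i j : Fin 4} {v : V} (hi : v ∈ BB G τ (D.X i))
    (hj : v ∈ BB G τ (D.X j)) : i = j := by
  by_contra hij
  obtain ⟨d, _, h2, rfl⟩ := mem_BB.1 hi
  obtain ⟨d', _, h3, h4⟩ := mem_BB.1 hj
  rw [h4] at h3
  exact (disjoint_left.1 (D.disj i j hij)) h2 h3

/-- from a chain with the same start and end to a cycle -/
theorem cyc_of_ch {c : List (Dart E)} {a : V} (hne : c ≠ []) (hch : Ch G a c a)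
    (hnd : (c.map fun d => G.vt (rv d)).Nodup) (hnd' : (c.map Prod.fst).Nodup) : IsCyc G c := by
  obtain ⟨h1, h2⟩ := (BRHM.ch_iff c a a).1 hch
  have hcl : c.map (fun d => G.vt (rv d)) = (c.map G.vt).rotate 1 := by
    cases c with
    | nil => exact absurd rfl hne
    | cons d c =>
      simp only [List.map_cons, List.cons_append, List.cons.injEq] at h2
      obtain ⟨h3, h4⟩ := h2
      simp only [List.map_cons, List.rotate_cons_succ, List.rotate_zero]
      rw [h4, h3]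
  refine ⟨hne, h1, hnd', ?_, hcl⟩
  rw [hcl] at hnd
  exact List.nodup_rotate.1 hnd

theorem tp_spec {F : SimpleGraph (Fin N)} {v w : Fin N} (h : F.Reachable v w) :
    DL.IsPth F v w (DL.tp F v w) := by
  classical
  have hex : ∃ P, DL.IsPth F v w P := by
    obtain ⟨p, hp⟩ := h.exists_isPath
    exact ⟨p.edges.toFinset, p, hp, rfl⟩
  unfold DL.tp
  rw [dif_pos hex]
  exact hex.choose_spec

theorem dart (D : DL.D4M (sg G τ)) (i : Fin 4) (b : Bool) :
    ∃ d : Dart E, d.1 ∈ G.X ∧ τ (G.vt d) = D.p i b ∧ τ (G.vt (rv d)) = D.q i b := by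
  obtain ⟨_, d, h1, h2, h3⟩ := D.adj i b
  exact ⟨d, h1, h2, h3⟩

/-- the tree part of the cycle between two beads -/
theorem seg (hBRP : SpecBRP) (h : Tr G τ) (D : DL.D4M (sg G τ)) (i : Fin 4) (x y : Dart E)
    (hx : x.1 ∈ G.X) (hy : y.1 ∈ G.X) (p q : Fin N) (hq : q ∈ D.X i) (hp : p ∈ D.X i)
    (hxq : τ (G.vt (rv x)) = q) (hyp : τ (G.vt y) = p) :
    ∃ L : List (Dart E), Ch G (G.vt (rv x)) L (G.vt y) ∧
      (cvs G (G.vt (rv x)) L).Nodup ∧ (L.map Prod.fst).Nodup ∧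
      (∀ d ∈ L, d.1 ∈ TT G τ (D.T i)) ∧ es G τ L = DL.tp (D.T i) q p := by
  obtain ⟨w, hw1, hw2⟩ := tp_spec (D.conn i q hq p hp)
  obtain ⟨L, b, hb, hc, h1, h2, h3, _, h5, d₁, h6, h7⟩ :=
    hBRP h (D.T i) (D.sub i) q p w hw1 (rv x) hx hxq
  have hby : b = G.vt y := by
    rw [← h7]
    refine h.inj d₁ y h6 hy ?_
    rw [h7, hb, hyp]
  subst hby
  refine ⟨L, hc, h1, h2, ?_, ?_⟩
  · intro d hd
    rw [mem_TT]
    exact ⟨((BRHM.ch_iff L _ _).1 hc).1 d hd, h5 d hd⟩
  · rw [h3]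
    exact hw2

end

end BRDM

open BRDM in
theorem specBRD (hA : SpecBRA) (hBRP : SpecBRP) (hTRE : SpecTRE) : SpecBRD := by
  intro V E _ _ N G τ h D
  classical
  choose bd hbd1 hbd2 hbd3 using BRDM.dart (G := G) (τ := τ) D
  have hbS : ∀ i b, G.vt (bd i b) ∈ BB G τ (D.X i) := fun i b =>
    mem_BB.2 ⟨bd i b, hbd1 i b, by rw [hbd2]; exact D.pX i b, rfl⟩
  have hbE : ∀ i b, G.vt (rv (bd i b)) ∈ BB G τ (D.X (i + 1)) := fun i b =>
    mem_BB.2 ⟨rv (bd i b), hbd1 i b, by rw [hbd3]; exact D.qX i b, rfl⟩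
  have hedb : ∀ i b, ed G τ (bd i b).1 = s(D.p i b, D.q i b) := by
    intro i b
    rw [BRHM.edd, hbd2, hbd3]
  refine ⟨⟨fun i => BB G τ (D.X i), fun i => TT G τ (D.T i), bd⟩, ?_, ?_⟩
  · refine ⟨?_, ?_, ends D, conn h D, card hA hTRE h D, hbd1, hbS, hbE, ?_⟩
    · intro i j hij
      rw [disjoint_left]
      intro v hi hj
      exact hij (BB_disj D hi hj)
    · intro i e he
      exact (mem_TT.1 he).1
    · intro i he
      refine D.ne i ?_
      rw [← hedb, ← hedb, he]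
  · intro ε
    have hseg := fun i : Fin 4 => seg hBRP h D (i + 1) (bd i (ε i)) (bd (i + 1) (ε (i + 1)))
      (hbd1 _ _) (hbd1 _ _) (D.p (i + 1) (ε (i + 1))) (D.q i (ε i)) (D.qX i _) (D.pX (i + 1) _)
      (hbd3 _ _) (hbd2 _ _)
    choose M hM1 hM2 hM3 hM4 hM5 using hseg
    let blk : Fin 4 → List (Dart E) := fun i => bd i (ε i) :: M i
    have hblk : ∀ i x, x ∈ blk i ↔ x = bd i (ε i) ∨ x ∈ M i := fun i x => List.mem_cons
    let c : List (Dart E) := blk 0 ++ (blk 1 ++ (blk 2 ++ blk 3))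
    have hmem : ∀ x, x ∈ c ↔ ∃ i, x ∈ blk i := by
      intro x
      simp only [c, List.mem_append]
      constructor
      · rintro (h1 | h1 | h1 | h1)
        exacts [⟨0, h1⟩, ⟨1, h1⟩, ⟨2, h1⟩, ⟨3, h1⟩]
      · rintro ⟨i, hi⟩
        fin_cases i
        · exact Or.inl hi
        · exact Or.inr (Or.inl hi)
        · exact Or.inr (Or.inr (Or.inl hi))
        · exact Or.inr (Or.inr (Or.inr hi))
    have hchb : ∀ i, Ch G (G.vt (bd i (ε i))) (blk i) (G.vt (bd (i + 1) (ε (i + 1)))) := fun i =>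
      ⟨hbd1 _ _, rfl, hM1 i⟩
    have hch : Ch G (G.vt (bd 0 (ε 0))) c (G.vt (bd 0 (ε 0))) := by
      rw [BRHM.ch_append]
      refine ⟨_, hchb 0, ?_⟩
      rw [BRHM.ch_append]
      refine ⟨_, hchb 1, ?_⟩
      rw [BRHM.ch_append]
      exact ⟨_, hchb 2, hchb 3⟩
    -- vertices
    have hF1 : ∀ i, ∀ x ∈ blk i, G.vt (rv x) ∈ BB G τ (D.X (i + 1)) := by
      intro i x hx
      rcases (hblk i x).1 hx with rfl | hx
      · exact hbE _ _
      · exact ends D (i + 1) (rv x) (hM4 i x hx)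
    have hF2 : ∀ i, ∀ x ∈ M i, G.vt x ∈ BB G τ (D.X (i + 1)) := by
      intro i x hx
      exact ends D (i + 1) x (hM4 i x hx)
    have hndb : ∀ i, ((blk i).map fun d => G.vt (rv d)).Nodup := fun i => hM2 i
    have hdis : ∀ i j, i ≠ j → ∀ x ∈ blk i, ∀ y ∈ blk j, G.vt (rv x) ≠ G.vt (rv y) := by
      intro i j hij x hx y hy hxy
      have h1 := hF1 i x hx
      rw [hxy] at h1
      exact hij (add_right_cancel (BB_disj D h1 (hF1 j y hy)))
    have hnd : (c.map fun d => G.vt (rv d)).Nodup := by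
      simp only [c, List.map_append]
      refine List.nodup_append.2 ⟨hndb 0, List.nodup_append.2 ⟨hndb 1, List.nodup_append.2
        ⟨hndb 2, hndb 3, ?_⟩, ?_⟩, ?_⟩
      · intro u hu v hv
        obtain ⟨x, hx, rfl⟩ := List.mem_map.1 hu
        obtain ⟨y, hy, rfl⟩ := List.mem_map.1 hv
        exact hdis 2 3 (by decide) x hx y hy
      · intro u hu v hv
        obtain ⟨x, hx, rfl⟩ := List.mem_map.1 hu
        rcases List.mem_append.1 hv with hv | hv
        · obtain ⟨y, hy, rfl⟩ := List.mem_map.1 hv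
          exact hdis 1 2 (by decide) x hx y hy
        · obtain ⟨y, hy, rfl⟩ := List.mem_map.1 hv
          exact hdis 1 3 (by decide) x hx y hy
      · intro u hu v hv
        obtain ⟨x, hx, rfl⟩ := List.mem_map.1 hu
        rcases List.mem_append.1 hv with hv | hv
        · obtain ⟨y, hy, rfl⟩ := List.mem_map.1 hv
          exact hdis 0 1 (by decide) x hx y hy
        rcases List.mem_append.1 hv with hv | hv
        · obtain ⟨y, hy, rfl⟩ := List.mem_map.1 hv
          exact hdis 0 2 (by decide) x hx y hy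
        · obtain ⟨y, hy, rfl⟩ := List.mem_map.1 hv
          exact hdis 0 3 (by decide) x hx y hy
    have hne1 : ∀ i : Fin 4, i ≠ i + 1 := by decide
    have hne2 : ∀ i : Fin 4, i ≠ i + 1 + 1 := by decide
    have hinj : ∀ x ∈ c, ∀ y ∈ c, x.1 = y.1 → x = y := by
      intro x hx y hy hxy
      rcases CYCM.fst_eq hxy with h1 | h1
      · exact h1
      exfalso
      obtain ⟨i, hi⟩ := (hmem x).1 hx
      obtain ⟨j, hj⟩ := (hmem y).1 hy
      have e1 : G.vt y ∈ BB G τ (D.X (i + 1)) := by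
        have := hF1 i x hi
        rw [h1, CYCM.rv_rv] at this
        exact this
      have e2 : G.vt x ∈ BB G τ (D.X (j + 1)) := by
        have := hF1 j y hj
        rw [← h1] at this
        exact this
      rcases (hblk j y).1 hj with hj' | hj'
      · rw [hj'] at e1
        have hji : j = i + 1 := BB_disj D (hbS _ _) e1
        subst hji
        rcases (hblk i x).1 hi with hi' | hi'
        · rw [hi'] at e2
          exact hne2 i (BB_disj D (hbS _ _) e2)
        · exact hne1 (i + 1) (BB_disj D (hF2 i x hi') e2)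
      · have hji : j = i := add_right_cancel (BB_disj D (hF2 j y hj') e1)
        subst hji
        rcases (hblk j x).1 hi with hi' | hi'
        · rw [hi'] at e2
          exact hne1 j (BB_disj D (hbS _ _) e2)
        · have h2 := List.inj_on_of_nodup_map (hM3 j) hi' hj' hxy
          rw [h2] at h1
          exact CYCM.rv_ne y h1.symm
    have hnd' : (c.map Prod.fst).Nodup :=
      List.Nodup.map_on hinj (List.Nodup.of_map _ hnd)
    have hcyc : IsCyc G c := cyc_of_ch (by simp [c, blk]) hch hnd hnd'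
    refine ⟨c, ⟨hcyc, ?_, ?_⟩, ?_⟩
    · intro d hd
      obtain ⟨i, hi⟩ := (hmem d).1 hd
      rcases (hblk i d).1 hi with hi | hi
      · exact Or.inr ⟨i, hi⟩
      · exact Or.inl ⟨i + 1, hM4 i d hi⟩
    · intro i
      exact (hmem _).2 ⟨i, (hblk i _).2 (Or.inl rfl)⟩
    · ext z
      unfold DL.D4M.cyc
      rw [mem_union, mem_image, mem_biUnion]
      unfold es
      rw [mem_image]
      constructor
      · rintro ⟨e, he, hez⟩
        obtain ⟨d, hd, rfl⟩ := List.mem_map.1 (List.mem_toFinset.1 he)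
        obtain ⟨i, hi⟩ := (hmem d).1 hd
        rcases (hblk i d).1 hi with hi | hi
        · left
          refine ⟨i, mem_univ _, ?_⟩
          rw [← hedb, ← hi]
          exact hez
        · right
          refine ⟨i, mem_univ _, ?_⟩
          rw [← hM5 i]
          unfold es
          exact mem_image.2 ⟨d.1, List.mem_toFinset.2 (List.mem_map.2 ⟨d, hi, rfl⟩), hez⟩
      · rintro (⟨i, _, hi⟩ | ⟨i, _, hi⟩)
        · refine ⟨(bd i (ε i)).1, List.mem_toFinset.2 (List.mem_map.2 ⟨_, (hmem _).2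
            ⟨i, (hblk i _).2 (Or.inl rfl)⟩, rfl⟩), ?_⟩
          rw [hedb]
          exact hi
        · rw [← hM5 i] at hi
          unfold es at hi
          obtain ⟨e, he, hez⟩ := mem_image.1 hi
          obtain ⟨d, hd, rfl⟩ := List.mem_map.1 (List.mem_toFinset.1 he)
          exact ⟨d.1, List.mem_toFinset.2 (List.mem_map.2 ⟨d, (hmem _).2
            ⟨i, (hblk i _).2 (Or.inr hd)⟩, rfl⟩), hez⟩

end Pool.Agent.Lib.MP3ff0f8.BR
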