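import Pool.Agent.Lib.MP_3ff0f8_gt.BR.Spec

/-!
# MP_3ff0f8_gt, bridge: linear duality for the van Kampen cochain (BRN)
-/

namespace Pool.Agent.Lib.MP3ff0f8.BR

open Pool.Agent.Lib.MP3ff0f8.T Finset

namespace BRNM

set_option linter.unusedSimpArgs false in
set_option linter.unreachableTactic false in
set_option linter.unusedTactic false in
theorem chk (p q u w : ℕ) (h1 : p ≠ q) (h2 : u ≠ w) (h3 : p ≠ u) (h4 : p ≠ w) (h5 : q ≠ u)
    (h6 : q ≠ w) :
    (((if p < u ∧ u < q ∧ q < w then (1 : ZMod 2) else 0) + (if p < w ∧ w < q ∧ q < u then 1 else 0)) +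
      ((if q < u ∧ u < p ∧ p < w then (1 : ZMod 2) else 0) + (if q < w ∧ w < p ∧ p < u then 1 else 0))) +
    (((if u < p ∧ p < w ∧ w < q then (1 : ZMod 2) else 0) + (if u < q ∧ q < w ∧ w < p then 1 else 0)) +
      ((if w < p ∧ p < u ∧ u < q then (1 : ZMod 2) else 0) + (if w < q ∧ q < u ∧ u < p then 1 else 0))) =
    ((if p < u then (1 : ZMod 2) else 0) + (if p < w then 1 else 0)) +
    ((if q < u then (1 : ZMod 2) else 0) + (if q < w then 1 else 0)) := by
  rcases Nat.lt_or_gt_of_ne h1 with a1 | a1 <;> rcases Nat.lt_or_gt_of_ne h2 with a2 | a2 <;>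
  rcases Nat.lt_or_gt_of_ne h3 with a3 | a3 <;> rcases Nat.lt_or_gt_of_ne h4 with a4 | a4 <;>
  rcases Nat.lt_or_gt_of_ne h5 with a5 | a5 <;> rcases Nat.lt_or_gt_of_ne h6 with a6 | a6 <;>
  first
  | (exfalso; omega)
  | (simp only [a1, a2, a3, a4, a5, a6, lt_asymm a1, lt_asymm a2, lt_asymm a3, lt_asymm a4,
      lt_asymm a5, lt_asymm a6, and_true, and_false, true_and, false_and, if_true, if_false,
      and_self]; decide)

/-- sum over the pairs which form a given edge -/
theorem sum_pair {α : Type} [Fintype α] [DecidableEq α] (p q : α) (hpq : p ≠ q)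
    (F : α → α → ZMod 2) :
    ∑ a, ∑ b, (if s(a, b) = s(p, q) then F a b else 0) = F p q + F q p := by
  have h : ∀ a b, (if s(a, b) = s(p, q) then F a b else 0) =
      (if a = p then (if b = q then F a b else 0) else 0) +
      (if a = q then (if b = p then F a b else 0) else 0) := by
    intro a b
    by_cases h1 : a = p
    · by_cases h2 : b = q
      · subst h1 h2
        simp [hpq]
      · subst h1
        have : ¬ s(a, b) = s(a, q) := by
          intro h
          rw [Sym2.eq_iff] at h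
          rcases h with h | h
          · exact h2 h.2
          · exact hpq h.1
        simp [this, h2, hpq]
    · by_cases h2 : a = q
      · by_cases h3 : b = p
        · subst h2 h3
          simp [Sym2.eq_swap, h1]
        · have : ¬ s(a, b) = s(p, q) := by
            intro h
            rw [Sym2.eq_iff] at h
            rcases h with h | h
            · exact h1 h.1
            · exact h3 h.2
          simp [this, h1, h3]
      · have : ¬ s(a, b) = s(p, q) := by
          intro h
          rw [Sym2.eq_iff] at h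
          rcases h with h | h
          · exact h1 h.1
          · exact h2 h.1
        simp [this, h1, h2]
  simp_rw [h]
  simp only [Finset.sum_add_distrib]
  have e1 : ∀ (r s : α), ∑ a, ∑ b, (if a = r then (if b = s then F a b else 0) else 0) = F r s := by
    intro r s
    rw [Finset.sum_eq_single r]
    · simp
    · intro a _ ha
      simp [ha]
    · simp
  rw [e1, e1]

open Classical in
/-- the symmetric function given by `y` -/
noncomputable def sy {N : ℕ} (H : SimpleGraph (Fin N)) (y : Sym2 (Fin N) × Sym2 (Fin N) → ZMod 2)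
    (e f : Sym2 (Fin N)) : ZMod 2 :=
  if e ∈ H.edgeSet ∧ f ∈ H.edgeSet ∧ DL.Dj e f then y (e, f) + y (f, e) else 0

variable {N : ℕ} (H : SimpleGraph (Fin N))

theorem dj_comm {e f : Sym2 (Fin N)} (h : DL.Dj e f) : DL.Dj f e := fun v hv => h v ⟨hv.2, hv.1⟩

theorem sy_add (y y' : Sym2 (Fin N) × Sym2 (Fin N) → ZMod 2) (e f : Sym2 (Fin N)) :
    sy H (y + y') e f = sy H y e f + sy H y' e f := by
  unfold sy
  split_ifs
  · simp only [Pi.add_apply]
    ring
  · simp

theorem sy_symm (y : Sym2 (Fin N) × Sym2 (Fin N) → ZMod 2) (e f : Sym2 (Fin N)) :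
    sy H y e f = sy H y f e := by
  unfold sy
  by_cases h : e ∈ H.edgeSet ∧ f ∈ H.edgeSet ∧ DL.Dj e f
  · rw [if_pos h, if_pos ⟨h.2.1, h.1, dj_comm h.2.2⟩, add_comm]
  · rw [if_neg h, if_neg]
    intro h'
    exact h ⟨h'.2.1, h'.1, dj_comm h'.2.2⟩

/-- the van Kampen functional -/
noncomputable def K : (Sym2 (Fin N) × Sym2 (Fin N) → ZMod 2) →+ ZMod 2 :=
  AddMonoidHom.mk' (fun y => DL.vk (fun i : Fin N => (i : ℕ)) (fun e f => sy H y e f)) (by
    intro y y'
    simp only [DL.vk, sy_add]
    simp only [← Finset.sum_add_distrib]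
    refine Finset.sum_congr rfl fun a _ => Finset.sum_congr rfl fun b _ =>
      Finset.sum_congr rfl fun c _ => Finset.sum_congr rfl fun d _ => ?_
    split_ifs
    · rfl
    · simp)

open Classical in
/-- the boundary functionals -/
noncomputable def L (p : Fin N × Sym2 (Fin N)) : (Sym2 (Fin N) × Sym2 (Fin N) → ZMod 2) →+ ZMod 2 :=
  AddMonoidHom.mk' (fun y => if p.1 ∈ p.2 then 0 else ∑ h, if p.1 ∈ h then sy H y p.2 h else 0) (by
    intro y y'
    simp only [sy_add]
    split_ifs
    · simp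
    · simp only [← Finset.sum_add_distrib]
      refine Finset.sum_congr rfl fun a _ => ?_
      split_ifs
      · rfl
      · simp)

theorem dual (hN : ¬ DL.NP H) : ∃ ρ : Fin N × Sym2 (Fin N) → ZMod 2,
    ∀ y, K H y = ∑ p, ρ p * L H p y := by
  have h0 : ∀ z, DL.IsZ2 H z → DL.vk (fun i : Fin N => (i : ℕ)) z = 0 := by
    intro z hz
    by_contra h
    exact hN ⟨fun i => (i : ℕ), Fin.val_injective, z, hz, h⟩
  have h1 : ⨅ p, LinearMap.ker ((L H p).toZModLinearMap 2) ≤
      LinearMap.ker ((K H).toZModLinearMap 2) := by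
    intro y hy
    rw [LinearMap.mem_ker]
    change K H y = 0
    simp only [Submodule.mem_iInf, LinearMap.mem_ker] at hy
    apply h0
    refine ⟨fun e f => sy_symm H y e f, ?_, ?_⟩
    · intro e f h
      by_contra hn
      exact h (if_neg hn)
    · intro e v hv
      have := hy (v, e)
      change (if v ∈ e then (0 : ZMod 2) else ∑ h, if v ∈ h then sy H y e h else 0) = 0 at this
      rw [if_neg hv] at this
      rw [Finset.sum_filter]
      exact this
  have h2 := mem_span_of_iInf_ker_le_ker h1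
  rw [Submodule.mem_span_range_iff_exists_fun] at h2
  obtain ⟨ρ, hρ⟩ := h2
  refine ⟨ρ, fun y => ?_⟩
  have h3 := congrArg (fun F => F y) hρ
  simp only [LinearMap.sum_apply, LinearMap.smul_apply, smul_eq_mul] at h3
  exact h3.symm

theorem sy_single {p q u w : Fin N} (he : s(p, q) ∈ H.edgeSet) (hf : s(u, w) ∈ H.edgeSet)
    (hD : DL.Dj s(p, q) s(u, w)) (g h : Sym2 (Fin N)) :
    sy H (Pi.single (s(p, q), s(u, w)) 1) g h =
      (if g = s(p, q) then (if h = s(u, w) then 1 else 0) else 0) +
      (if g = s(u, w) then (if h = s(p, q) then 1 else 0) else 0) := by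
  have hne : s(p, q) ≠ s(u, w) := by
    intro h
    apply hD p
    rw [← h]
    simp
  unfold sy
  simp only [Pi.single_apply, Prod.mk.injEq]
  by_cases h1 : g = s(p, q)
  · subst h1
    by_cases h2 : h = s(u, w)
    · subst h2
      simp [he, hf, hD, hne]
    · simp [h2, hne]
  · by_cases h3 : g = s(u, w)
    · subst h3
      by_cases h4 : h = s(p, q)
      · subst h4
        simp [he, hf, dj_comm hD, hne.symm]
      · simp [h4, hne.symm]
    · simp [h1, h3]

theorem K_single {p q u w : Fin N} (he : s(p, q) ∈ H.edgeSet) (hf : s(u, w) ∈ H.edgeSet)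
    (hD : DL.Dj s(p, q) s(u, w)) (hpq : p ≠ q) (huw : u ≠ w) :
    K H (Pi.single (s(p, q), s(u, w)) 1) =
      ((if (p : ℕ) < u then (1 : ZMod 2) else 0) + (if (p : ℕ) < w then 1 else 0)) +
      ((if (q : ℕ) < u then (1 : ZMod 2) else 0) + (if (q : ℕ) < w then 1 else 0)) := by
  have hpu : p ≠ u := by rintro rfl; exact hD p ⟨by simp, by simp⟩
  have hpw : p ≠ w := by rintro rfl; exact hD p ⟨by simp, by simp⟩
  have hqu : q ≠ u := by rintro rfl; exact hD q ⟨by simp, by simp⟩
  have hqw : q ≠ w := by rintro rfl; exact hD q ⟨by simp, by simp⟩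
  change DL.vk (fun i : Fin N => (i : ℕ))
    (fun e f => sy H (Pi.single (s(p, q), s(u, w)) 1) e f) = _
  unfold DL.vk
  have step : ∀ a b c d : Fin N, (if (a : ℕ) < c ∧ (c : ℕ) < b ∧ (b : ℕ) < d then
      sy H (Pi.single (s(p, q), s(u, w)) 1) s(a, b) s(c, d) else 0) =
      (if s(a, b) = s(p, q) then (if s(c, d) = s(u, w) then
        (if (a : ℕ) < c ∧ (c : ℕ) < b ∧ (b : ℕ) < d then 1 else 0) else 0) else 0) +
      (if s(a, b) = s(u, w) then (if s(c, d) = s(p, q) then
        (if (a : ℕ) < c ∧ (c : ℕ) < b ∧ (b : ℕ) < d then 1 else 0) else 0) else 0) := by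
    intro a b c d
    rw [sy_single H he hf hD]
    split_ifs <;> simp
  simp_rw [step]
  simp only [Finset.sum_add_distrib]
  have hsum : ∀ (p q u w : Fin N), p ≠ q → u ≠ w →
      ∑ a, ∑ b, ∑ c, ∑ d, (if s(a, b) = s(p, q) then (if s(c, d) = s(u, w) then
        (if (a : ℕ) < (c : Fin N) ∧ (c : ℕ) < (b : Fin N) ∧ (b : ℕ) < (d : Fin N) then (1 : ZMod 2)
          else 0) else 0) else 0) =
      ((if (p : ℕ) < u ∧ (u : ℕ) < q ∧ (q : ℕ) < w then (1 : ZMod 2) else 0) +
        (if (p : ℕ) < w ∧ (w : ℕ) < q ∧ (q : ℕ) < u then 1 else 0)) +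
      ((if (q : ℕ) < u ∧ (u : ℕ) < p ∧ (p : ℕ) < w then (1 : ZMod 2) else 0) +
        (if (q : ℕ) < w ∧ (w : ℕ) < p ∧ (p : ℕ) < u then 1 else 0)) := by
    intro p q u w hpq huw
    have : ∀ a b : Fin N, ∑ c : Fin N, ∑ d : Fin N, (if s(a, b) = s(p, q) then
        (if s(c, d) = s(u, w) then
        (if (a : ℕ) < c ∧ (c : ℕ) < b ∧ (b : ℕ) < d then (1 : ZMod 2) else 0) else 0) else 0) =
        (if s(a, b) = s(p, q) then ((if (a : ℕ) < u ∧ (u : ℕ) < b ∧ (b : ℕ) < w then (1 : ZMod 2)
          else 0) + (if (a : ℕ) < w ∧ (w : ℕ) < b ∧ (b : ℕ) < u then 1 else 0)) else 0) := by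
      intro a b
      by_cases h : s(a, b) = s(p, q)
      · simp only [h, if_true]
        exact sum_pair u w huw (fun c d => if (a : ℕ) < c ∧ (c : ℕ) < b ∧ (b : ℕ) < d then 1 else 0)
      · simp [h]
    simp_rw [this]
    exact sum_pair p q hpq (fun a b => ((if (a : ℕ) < u ∧ (u : ℕ) < b ∧ (b : ℕ) < w then (1 : ZMod 2)
          else 0) + (if (a : ℕ) < w ∧ (w : ℕ) < b ∧ (b : ℕ) < u then 1 else 0)))
  rw [hsum p q u w hpq huw, hsum u w p q huw hpq]
  exact chk p q u w (Fin.val_injective.ne hpq) (Fin.val_injective.ne huw)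
    (Fin.val_injective.ne hpu) (Fin.val_injective.ne hpw) (Fin.val_injective.ne hqu)
    (Fin.val_injective.ne hqw)

theorem L_single {p q u w : Fin N} (he : s(p, q) ∈ H.edgeSet) (hf : s(u, w) ∈ H.edgeSet)
    (hD : DL.Dj s(p, q) s(u, w)) (v : Fin N) (g : Sym2 (Fin N)) :
    L H (v, g) (Pi.single (s(p, q), s(u, w)) 1) =
      (if g = s(p, q) then (if v = u ∨ v = w then 1 else 0) else 0) +
      (if g = s(u, w) then (if v = p ∨ v = q then 1 else 0) else 0) := by
  classical
  have hpu : p ≠ u := by rintro rfl; exact hD p ⟨by simp, by simp⟩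
  have hpw : p ≠ w := by rintro rfl; exact hD p ⟨by simp, by simp⟩
  have hqu : q ≠ u := by rintro rfl; exact hD q ⟨by simp, by simp⟩
  have hqw : q ≠ w := by rintro rfl; exact hD q ⟨by simp, by simp⟩
  have hne : s(p, q) ≠ s(u, w) := by
    intro h
    apply hD p
    rw [← h]
    simp
  change (if v ∈ g then (0 : ZMod 2) else
    ∑ h, if v ∈ h then sy H (Pi.single (s(p, q), s(u, w)) 1) g h else 0) = _
  have step : ∀ h : Sym2 (Fin N), (if v ∈ h then sy H (Pi.single (s(p, q), s(u, w)) 1) g h else 0) =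
      (if h = s(u, w) then (if g = s(p, q) then (if v ∈ h then 1 else 0) else 0) else 0) +
      (if h = s(p, q) then (if g = s(u, w) then (if v ∈ h then 1 else 0) else 0) else 0) := by
    intro h
    rw [sy_single H he hf hD]
    split_ifs <;> simp
  simp_rw [step]
  rw [Finset.sum_add_distrib, Finset.sum_ite_eq', Finset.sum_ite_eq']
  simp only [Finset.mem_univ, if_true, Sym2.mem_iff]
  by_cases hg : g = s(p, q)
  · subst hg
    simp only [if_true, hne, if_false, add_zero, Sym2.mem_iff]
    by_cases hv : v = p ∨ v = q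
    · rw [if_pos hv, if_neg]
      rintro (h | h)
      · rcases hv with hv | hv
        · exact hpu (hv.symm.trans h)
        · exact hqu (hv.symm.trans h)
      · rcases hv with hv | hv
        · exact hpw (hv.symm.trans h)
        · exact hqw (hv.symm.trans h)
    · rw [if_neg hv]
  · by_cases hg' : g = s(u, w)
    · subst hg'
      simp only [hne.symm, if_false, if_true, zero_add, Sym2.mem_iff]
      by_cases hv : v = u ∨ v = w
      · rw [if_pos hv, if_neg]
        rintro (h | h)
        · rcases hv with hv | hv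
          · exact hpu (h.symm.trans hv)
          · exact hpw (h.symm.trans hv)
        · rcases hv with hv | hv
          · exact hqu (h.symm.trans hv)
          · exact hqw (h.symm.trans hv)
      · rw [if_neg hv]
    · simp [hg, hg']

theorem main (ρ : Fin N × Sym2 (Fin N) → ZMod 2) (hρ : ∀ y, K H y = ∑ p, ρ p * L H p y)
    {p q u w : Fin N} (he : s(p, q) ∈ H.edgeSet) (hf : s(u, w) ∈ H.edgeSet)
    (hD : DL.Dj s(p, q) s(u, w)) (hpq : p ≠ q) (huw : u ≠ w) :
    (ρ (u, s(p, q)) + ρ (w, s(p, q))) + (ρ (p, s(u, w)) + ρ (q, s(u, w))) =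
      ((if (p : ℕ) < u then (1 : ZMod 2) else 0) + (if (p : ℕ) < w then 1 else 0)) +
      ((if (q : ℕ) < u then (1 : ZMod 2) else 0) + (if (q : ℕ) < w then 1 else 0)) := by
  rw [← K_single H he hf hD hpq huw, hρ]
  rw [Fintype.sum_prod_type]
  simp only [L_single H he hf hD]
  have h1 : ∀ (v : Fin N), ∑ g : Sym2 (Fin N), ρ (v, g) *
      ((if g = s(p, q) then (if v = u ∨ v = w then (1 : ZMod 2) else 0) else 0) +
      (if g = s(u, w) then (if v = p ∨ v = q then 1 else 0) else 0)) =
      ρ (v, s(p, q)) * (if v = u ∨ v = w then 1 else 0) +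
      ρ (v, s(u, w)) * (if v = p ∨ v = q then 1 else 0) := by
    intro v
    simp only [mul_add, mul_ite, mul_zero, Finset.sum_add_distrib, Finset.sum_ite_eq',
      Finset.mem_univ, if_true]
  simp_rw [h1]
  rw [Finset.sum_add_distrib]
  have h2 : ∀ (a b : Fin N) (g : Sym2 (Fin N)), a ≠ b →
      ∑ v : Fin N, ρ (v, g) * (if v = a ∨ v = b then 1 else 0) = ρ (a, g) + ρ (b, g) := by
    intro a b g hab
    have : ∀ v : Fin N, ρ (v, g) * (if v = a ∨ v = b then 1 else 0) =
        (if v = a then ρ (v, g) else 0) + (if v = b then ρ (v, g) else 0) := by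
      intro v
      by_cases h : v = a
      · subst h
        simp [hab]
      · by_cases h' : v = b
        · subst h'
          simp [h]
        · simp [h, h']
    simp_rw [this]
    rw [Finset.sum_add_distrib]
    simp
  rw [h2 u w _ huw, h2 p q _ hpq]

end BRNM

/-- **BRN** -/
theorem specBRN : SpecBRN := by
  intro V E _ _ N G τ hT hA
  by_contra hNP
  obtain ⟨ρ, hρ⟩ := BRNM.dual (sg G τ) hNP
  apply hA
  refine ⟨fun v => ((τ v : ℕ) : ℝ), fun v e => ρ (τ v, ed G τ e), ?_, ?_⟩
  · intro d d' hd hd' h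
    apply hT.inj d d' hd hd'
    apply Fin.val_injective
    have h' : ((τ (G.vt d) : ℕ) : ℝ) = ((τ (G.vt d') : ℕ) : ℝ) := h
    exact_mod_cast h'
  · intro e he f hf hdis
    have hne : ∀ e ∈ G.X, τ (G.vt (e, false)) ≠ τ (G.vt (e, true)) := by
      intro e he h
      exact hT.L (e, false) he (hT.inj (e, false) (e, true) he he h)
    have hed : ∀ e ∈ G.X, s(τ (G.vt (e, false)), τ (G.vt (e, true))) ∈ (sg G τ).edgeSet := by
      intro e he
      rw [SimpleGraph.mem_edgeSet]
      exact ⟨hne e he, (e, false), he, rfl, rfl⟩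
    have hdj : DL.Dj s(τ (G.vt (e, false)), τ (G.vt (e, true)))
        s(τ (G.vt (f, false)), τ (G.vt (f, true))) := by
      intro v hv
      simp only [Sym2.mem_iff] at hv
      have key : ∀ b b', τ (G.vt (e, b)) ≠ τ (G.vt (f, b')) := fun b b' h =>
        hdis b b' (hT.inj (e, b) (f, b') he hf h)
      rcases hv with ⟨h1 | h1, h2 | h2⟩
      · exact key _ _ (h1.symm.trans h2)
      · exact key _ _ (h1.symm.trans h2)
      · exact key _ _ (h1.symm.trans h2)
      · exact key _ _ (h1.symm.trans h2)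
    have := BRNM.main (sg G τ) ρ hρ (hed e he) (hed f hf) hdj (hne e he) (hne f hf)
    simp only [Fintype.sum_bool, Nat.cast_lt, ed]
    rw [add_comm (ρ (τ (G.vt (f, true)), _)), add_comm (ρ (τ (G.vt (e, true)), _)), this]
    ring

end Pool.Agent.Lib.MP3ff0f8.BR
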