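import Pool.Agent.Lib.MP_3ff0f8_gt.BR.Spec
import Pool.Agent.Lib.MP_3ff0f8_gt.T.All
import Pool.Agent.Lib.MP_3ff0f8_gt.BR.BRC
import Pool.Agent.Lib.MP_3ff0f8_gt.BR.BRD
import Pool.Agent.Lib.MP_3ff0f8_gt.BR.BRN
import Pool.Agent.Lib.MP_3ff0f8_gt.T.All2

section
/-!
# MP_3ff0f8_gt, bridge, module BRA: elementary properties of `sg G τ`
-/
namespace Pool.Agent.Lib.MP3ff0f8.BR

open Pool.Agent.Lib.MP3ff0f8.T Finset

namespace BRAM

theorem edd {V E : Type} {N : ℕ} (G : Gr V E) (τ : V → Fin N) (d : Dart E) :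
    ed G τ d.1 = s(τ (G.vt d), τ (G.vt (rv d))) := by
  obtain ⟨e, b⟩ := d
  cases b
  · rfl
  · exact Sym2.eq_swap

theorem adj {V E : Type} {N : ℕ} {G : Gr V E} {τ : V → Fin N} (h : Tr G τ) (d : Dart E)
    (hd : d.1 ∈ G.X) : (sg G τ).Adj (τ (G.vt d)) (τ (G.vt (rv d))) :=
  ⟨fun he => h.L d hd (h.inj d (rv d) hd hd he), d, hd, rfl, rfl⟩

theorem edi {V E : Type} {N : ℕ} {G : Gr V E} {τ : V → Fin N} (h : Tr G τ) (e : E) (he : e ∈ G.X)
    (e' : E) (he' : e' ∈ G.X) (hh : ed G τ e = ed G τ e') : e = e' := by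
  unfold ed at hh
  rcases Sym2.eq_iff.1 hh with ⟨h1, h2⟩ | ⟨h1, h2⟩
  · exact h.P (e, false) (e', false) he he' (h.inj _ _ he he' h1)
      (h.inj (e, true) (e', true) he he' h2)
  · exact h.P (e, false) (e', true) he he' (h.inj _ _ he he' h1)
      (h.inj (e, true) (e', false) he he' h2)

theorem ede {V E : Type} {N : ℕ} {G : Gr V E} {τ : V → Fin N} (h : Tr G τ) (z : Sym2 (Fin N)) :
    z ∈ (sg G τ).edgeSet ↔ ∃ e ∈ G.X, ed G τ e = z := by
  constructor
  · induction z using Sym2.ind with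
    | _ i j =>
      intro hz
      rw [SimpleGraph.mem_edgeSet] at hz
      obtain ⟨_, d, hd, h1, h2⟩ := hz
      exact ⟨d.1, hd, by rw [edd G τ d, h1, h2]⟩
  · rintro ⟨e, he, rfl⟩
    exact adj h (e, false) he

theorem ex {V E : Type} [DecidableEq V] [DecidableEq E] (G : Gr V E) (hL : Loopless G)
    (hP : NoPar G) (hX : G.X.Nonempty) : ∃ (N : ℕ) (τ : V → Fin N), Tr G τ := by
  classical
  obtain ⟨e, he⟩ := hX
  have hmem : ∀ d : Dart E, d.1 ∈ G.X → G.vt d ∈ G.vs G.X := by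
    intro d hd
    unfold Gr.vs
    exact mem_image_of_mem _ (mem_product.2 ⟨hd, mem_univ _⟩)
  have hpos : 0 < (G.vs G.X).card := card_pos.2 ⟨_, hmem (e, false) he⟩
  refine ⟨(G.vs G.X).card, fun v => if h : v ∈ G.vs G.X then (G.vs G.X).equivFin ⟨v, h⟩ else
    ⟨0, hpos⟩, hL, hP, ?_, ?_⟩
  · intro d d' hd hd' hh
    have h1 := hmem d hd
    have h2 := hmem d' hd'
    simp only [h1, h2, dif_pos] at hh
    have := (G.vs G.X).equivFin.injective hh
    simpa using this
  · intro i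
    have h1 := ((G.vs G.X).equivFin.symm i).2
    have h2 := h1
    unfold Gr.vs at h2
    obtain ⟨d, hd, hd'⟩ := mem_image.1 h2
    refine ⟨d, (mem_product.1 hd).1, ?_⟩
    have h3 : G.vt d = ((G.vs G.X).equivFin.symm i : V) := hd'
    simp only [h3, h1, dif_pos]
    simp

end BRAM

theorem specBRA : SpecBRA where
  ex := BRAM.ex
  edd := fun {_ _ _ G τ} _ d => BRAM.edd G τ d
  edi := fun h => BRAM.edi h
  ede := fun h => BRAM.ede h
  adj := fun h => BRAM.adj h

end Pool.Agent.Lib.MP3ff0f8.BR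
end

section
/-!
# MP_3ff0f8_gt, bridge: module BRF
-/
namespace Pool.Agent.Lib.MP3ff0f8.BR

open Pool.Agent.Lib.MP3ff0f8.T Finset

theorem specBRF (hBRA : SpecBRA) (hBRU : SpecBRU) (hBRK : SpecBRK) (hBRS : SpecBRS)
    (hBRN : SpecBRN) : SpecBRF := by
  intro hC V E _ _ G hL hP hD hS hA
  rcases G.X.eq_empty_or_nonempty with h | h
  · exfalso
    apply hA
    refine ⟨fun _ => 0, fun _ _ => 0, fun d _ hd => ?_, fun e he => ?_⟩
    · rw [h] at hd
      exact absurd hd (Finset.notMem_empty _)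
    · rw [h] at he
      exact absurd he (Finset.notMem_empty _)
  · obtain ⟨N, τ, hT⟩ := hBRA.ex G hL hP h
    by_cases h5 : 5 ≤ N
    · exact hBRU hT (hC N (sg G τ) (hBRK hT hD hS h5) (hBRN hT hA))
    · exact absurd (hBRS hT hD (by omega)) hA

end Pool.Agent.Lib.MP3ff0f8.BR
end

section
/-!
# MP_3ff0f8_gt, bridge, module BRI: `DL.InF (sg G τ) f` gives `InF G (f ∘ es)`
-/
namespace Pool.Agent.Lib.MP3ff0f8.BR

open Pool.Agent.Lib.MP3ff0f8.T Finset

namespace BRIM

variable {V E : Type} [DecidableEq E] {N : ℕ} {G : Gr V E} {τ : V → Fin N}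

/-- an edge of `G` is on the cycle iff its image is in the edge set of the cycle -/
theorem mem_es (hBRA : SpecBRA) (hT : Tr G τ) {e : E} (he : e ∈ G.X) {c : List (Dart E)}
    (hc : IsCyc G c) : ed G τ e ∈ es G τ c ↔ e ∈ c.map Prod.fst := by
  simp only [es, mem_image, List.mem_toFinset]
  constructor
  · rintro ⟨e', he', h⟩
    have h1 : e' ∈ G.X := by
      obtain ⟨d, hd, rfl⟩ := List.mem_map.1 he'
      exact hc.mem d hd
    rw [hBRA.edi hT e he e' h1 h.symm]
    exact he'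
  · intro h
    exact ⟨e, h, rfl⟩

/-- the edge set of a cycle consists of images of edges of `G` -/
theorem es_sub {c : List (Dart E)} (hc : IsCyc G c) {z : Sym2 (Fin N)} (hz : z ∈ es G τ c) :
    ∃ e ∈ G.X, ed G τ e = z := by
  simp only [es, mem_image, List.mem_toFinset] at hz
  obtain ⟨e, he, h⟩ := hz
  obtain ⟨d, hd, rfl⟩ := List.mem_map.1 he
  exact ⟨d.1, hc.mem d hd, h⟩

theorem xe_eq (hBRA : SpecBRA) (hT : Tr G τ) {e : E} (he : e ∈ G.X) {c : List (Dart E)}
    (hc : IsCyc G c) : xe e c = if ed G τ e ∈ es G τ c then 1 else 0 := by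
  unfold xe
  by_cases h : e ∈ c.map Prod.fst
  · rw [if_pos h, if_pos ((mem_es hBRA hT he hc).2 h)]
  · rw [if_neg h, if_neg (fun h' => h ((mem_es hBRA hT he hc).1 h'))]

/-- three edges -/
theorem three (hBRA : SpecBRA) (hT : Tr G τ) (z₁ z₂ z₃ : Sym2 (Fin N)) :
    ∃ F ∈ FF G, ∀ c, IsCyc G c →
      F c = if z₁ ∈ es G τ c ∧ z₂ ∈ es G τ c ∧ z₃ ∈ es G τ c then 1 else 0 := by
  by_cases h : (∃ e ∈ G.X, ed G τ e = z₁) ∧ (∃ e ∈ G.X, ed G τ e = z₂) ∧ ∃ e ∈ G.X, ed G τ e = z₃
  · obtain ⟨⟨e₁, he₁, rfl⟩, ⟨e₂, he₂, rfl⟩, ⟨e₃, he₃, rfl⟩⟩ := h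
    refine ⟨fun c => xe e₁ c * xe e₂ c * xe e₃ c,
      Submodule.subset_span (Or.inl ⟨e₁, he₁, e₂, he₂, e₃, he₃, rfl⟩), ?_⟩
    intro c hc
    simp only [xe_eq hBRA hT he₁ hc, xe_eq hBRA hT he₂ hc, xe_eq hBRA hT he₃ hc]
    by_cases h1 : ed G τ e₁ ∈ es G τ c <;> by_cases h2 : ed G τ e₂ ∈ es G τ c <;>
      by_cases h3 : ed G τ e₃ ∈ es G τ c <;> simp [h1, h2, h3]
  · refine ⟨0, Submodule.zero_mem _, ?_⟩
    intro c hc
    rw [if_neg]
    · rfl
    · rintro ⟨h1, h2, h3⟩
      exact h ⟨es_sub hc h1, es_sub hc h2, es_sub hc h3⟩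

theorem eq_three {α : Type} [DecidableEq α] {S : Finset α} (h1 : 1 ≤ S.card) (h3 : S.card ≤ 3) :
    ∃ a b c, S = {a, b, c} := by
  have h : S.card = 1 ∨ S.card = 2 ∨ S.card = 3 := by omega
  rcases h with h | h | h
  · obtain ⟨a, rfl⟩ := card_eq_one.1 h
    exact ⟨a, a, a, by simp⟩
  · obtain ⟨a, b, _, rfl⟩ := card_eq_two.1 h
    exact ⟨a, b, b, by simp⟩
  · obtain ⟨a, b, c, _, _, _, rfl⟩ := card_eq_three.1 h
    exact ⟨a, b, c, rfl⟩

/-- small sets of edges -/
theorem small (hBRA : SpecBRA) (hT : Tr G τ) (S : Finset (Sym2 (Fin N))) (h1 : 1 ≤ S.card)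
    (h3 : S.card ≤ 3) : ∃ F ∈ FF G, ∀ c, IsCyc G c → F c = if S ⊆ es G τ c then 1 else 0 := by
  obtain ⟨z₁, z₂, z₃, rfl⟩ := eq_three h1 h3
  obtain ⟨F, hF, h⟩ := three hBRA hT z₁ z₂ z₃
  refine ⟨F, hF, fun c hc => ?_⟩
  rw [h c hc]
  congr 1
  simp only [insert_subset_iff, singleton_subset_iff]

/-- coherence -/
theorem coh (hBRA : SpecBRA) (hBRH : SpecBRH) (hT : Tr G τ) (i j k l : Fin N) :
    ∃ F ∈ FF G, ∀ c, IsCyc G c → F c = DL.coh i j k l (es G τ c) := by
  by_cases h : (sg G τ).Adj i j ∧ (sg G τ).Adj k l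
  · obtain ⟨⟨_, s, hs, rfl, rfl⟩, ⟨_, t, ht, rfl, rfl⟩⟩ := h
    by_cases hst : s.1 = t.1
    · have h2 : t = s ∨ t = rv s := by
        obtain ⟨e, b⟩ := s
        obtain ⟨e', b'⟩ := t
        simp only at hst
        subst hst
        cases b <;> cases b' <;> simp [rv]
      have hF : (fun c => xe s.1 c * xe s.1 c * xe s.1 c) ∈ FF G :=
        Submodule.subset_span (Or.inl ⟨s.1, hs, s.1, hs, s.1, hs, rfl⟩)
      have hx : ∀ c : List (Dart E), xe s.1 c * xe s.1 c * xe s.1 c = xe s.1 c := by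
        intro c
        unfold xe
        split_ifs <;> simp
      rcases h2 with rfl | rfl
      · refine ⟨_, hF, fun c hc => ?_⟩
        rw [hBRH.eq1 hT c hc t hs]
        exact hx c
      · refine ⟨_, hF, fun c hc => ?_⟩
        have h3 : rv (rv s) = s := by
          obtain ⟨e, b⟩ := s
          simp [rv]
        rw [h3, hBRH.eq2 hT c hc s hs]
        exact hx c
    · refine ⟨cc s t, Submodule.subset_span (Or.inr ⟨s, t, hs, ht, rfl⟩), fun c hc => ?_⟩
      exact (hBRH.coh hT c hc s t hs ht hst).symm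
  · refine ⟨0, Submodule.zero_mem _, fun c hc => ?_⟩
    unfold DL.coh
    rw [if_neg]
    · rfl
    · rintro ⟨h1, h2, _⟩
      exact h ⟨(SimpleGraph.mem_edgeSet _).1 ((hBRA.ede hT _).2 (es_sub hc h1)),
        (SimpleGraph.mem_edgeSet _).1 ((hBRA.ede hT _).2 (es_sub hc h2))⟩

end BRIM

open BRIM in
/-- Module BRI. -/
theorem specBRI (hBRA : SpecBRA) (hBRC : SpecBRC) (hPOL : SpecPOL) (hBRH : SpecBRH) : SpecBRI := by
  classical
  intro V E _ _ N G τ hT f hf
  obtain ⟨p, hp, hp0, l, hl⟩ := hf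
  obtain ⟨m, hm⟩ := hPOL p hp hp0
  have hS : ∀ S : Finset (Sym2 (Fin N)), ∃ F ∈ FF G, ∀ c, IsCyc G c →
      F c = if 1 ≤ S.card ∧ S.card ≤ 3 ∧ S ⊆ es G τ c then 1 else 0 := by
    intro S
    by_cases h : 1 ≤ S.card ∧ S.card ≤ 3
    · obtain ⟨F, hF, h'⟩ := small hBRA hT S h.1 h.2
      refine ⟨F, hF, fun c hc => ?_⟩
      rw [h' c hc]
      congr 1
      simp [h.1, h.2]
    · refine ⟨0, Submodule.zero_mem _, fun c hc => ?_⟩
      rw [if_neg]
      · rfl
      · rintro ⟨h1, h2, _⟩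
        exact h ⟨h1, h2⟩
  choose F₁ hF₁ h₁ using hS
  choose F₂ hF₂ h₂ using coh hBRA hBRH hT
  refine ⟨(∑ S, m S • F₁ S) + ∑ a, ∑ b, ∑ c, ∑ d, l a b c d • F₂ a b c d, ?_, ?_⟩
  · refine Submodule.add_mem _ (Submodule.sum_mem _ fun S _ => Submodule.smul_mem _ _ (hF₁ S)) ?_
    exact Submodule.sum_mem _ fun a _ => Submodule.sum_mem _ fun b _ => Submodule.sum_mem _
      fun c _ => Submodule.sum_mem _ fun d _ => Submodule.smul_mem _ _ (hF₂ a b c d)
  · intro c hc
    show f (es G τ c) = _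
    rw [hl _ (hBRC.cyc hT c hc), hm]
    simp only [Pi.add_apply, Finset.sum_apply, Pi.smul_apply, smul_eq_mul]
    congr 1
    · rw [Finset.sum_filter, ← Finset.sum_subset (Finset.subset_univ (es G τ c).powerset)]
      · refine Finset.sum_congr rfl fun S hS => ?_
        rw [h₁ S c hc]
        have h3 := Finset.mem_powerset.1 hS
        by_cases h : 1 ≤ S.card ∧ S.card ≤ 3
        · rw [if_pos h, if_pos ⟨h.1, h.2, h3⟩, mul_one]
        · rw [if_neg h, if_neg (fun h' => h ⟨h'.1, h'.2.1⟩), mul_zero]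
      · intro S _ hS
        rw [h₁ S c hc, if_neg (fun h' => hS (Finset.mem_powerset.2 h'.2.2)), mul_zero]
    · refine Finset.sum_congr rfl fun i _ => Finset.sum_congr rfl fun j _ =>
        Finset.sum_congr rfl fun k _ => Finset.sum_congr rfl fun q _ => ?_
      rw [h₂ i j k q c hc]

end Pool.Agent.Lib.MP3ff0f8.BR
end

section
/-!
# MP_3ff0f8_gt, bridge: connectivity (BRK)
-/
namespace Pool.Agent.Lib.MP3ff0f8.BR

open Pool.Agent.Lib.MP3ff0f8.T Finset

namespace BRKM

set_option linter.unusedSectionVars false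

variable {V E : Type} [DecidableEq V] [DecidableEq E] {N : ℕ} {G : Gr V E} {τ : V → Fin N}

/-- the edges at the vertex `i` -/
def ea (G : Gr V E) (τ : V → Fin N) (i : Fin N) : Finset E :=
  G.X.filter fun e => ∃ b : Bool, τ (G.vt (e, b)) = i

theorem mem_ea {i : Fin N} {e : E} : e ∈ ea G τ i ↔ e ∈ G.X ∧ ∃ b : Bool, τ (G.vt (e, b)) = i := by
  simp [ea]

theorem ea_dart {i : Fin N} {e : E} (h : e ∈ ea G τ i) :
    ∃ d : Dart E, d.1 = e ∧ d.1 ∈ G.X ∧ τ (G.vt d) = i := by
  obtain ⟨h1, b, hb⟩ := mem_ea.1 h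
  exact ⟨(e, b), rfl, h1, hb⟩

/-- an edge at two different vertices -/
theorem ea_two {i j : Fin N} (hij : i ≠ j) {e : E} (hi : e ∈ ea G τ i) (hj : e ∈ ea G τ j) :
    ∃ d : Dart E, d.1 = e ∧ d.1 ∈ G.X ∧ τ (G.vt d) = i ∧ τ (G.vt (rv d)) = j := by
  obtain ⟨h1, b, hb⟩ := mem_ea.1 hi
  obtain ⟨-, b', hb'⟩ := mem_ea.1 hj
  refine ⟨(e, b), rfl, h1, hb, ?_⟩
  have hne : b' = !b := by
    by_contra h
    have : b' = b := by
      cases b <;> cases b' <;> simp_all
    subst this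
    exact hij (hb.symm.trans hb')
  subst hne
  exact hb'

theorem ea_cap (hT : Tr G τ) {i j : Fin N} (hij : i ≠ j) : (ea G τ i ∩ ea G τ j).card ≤ 1 := by
  rw [Finset.card_le_one]
  intro e he e' he'
  rw [Finset.mem_inter] at he he'
  obtain ⟨d, h1, h2, h3, h4⟩ := ea_two hij he.1 he.2
  obtain ⟨d', h1', h2', h3', h4'⟩ := ea_two hij he'.1 he'.2
  have a1 : G.vt d = G.vt d' := hT.inj d d' h2 h2' (h3.trans h3'.symm)
  have a2 : G.vt (rv d) = G.vt (rv d') := hT.inj (rv d) (rv d') h2 h2' (h4.trans h4'.symm)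
  have := hT.P d d' h2 h2' a1 a2
  rw [← h1, ← h1']
  exact this

theorem ea_card (hT : Tr G τ) (hD : Deg3 G) (i : Fin N) : 3 ≤ (ea G τ i).card := by
  obtain ⟨d₀, h0, h1⟩ := hT.sur i
  have hne : (G.st (G.vt d₀)).Nonempty := by
    refine ⟨d₀, ?_⟩
    simp [Gr.st, h0]
  have h3 := hD _ hne
  have hinj : Set.InjOn (Prod.fst : Dart E → E) (G.st (G.vt d₀) : Set (Dart E)) := by
    intro d hd d' hd' hdd
    simp only [Gr.st, Finset.coe_filter, Finset.mem_product, Finset.mem_univ, and_true,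
      Set.mem_ofPred_eq] at hd hd'
    by_contra hne'
    have : d' = rv d := by
      obtain ⟨e, b⟩ := d
      obtain ⟨e', b'⟩ := d'
      simp only at hdd
      subst hdd
      simp only [rv, Prod.mk.injEq, true_and]
      simp only [Prod.mk.injEq, true_and] at hne'
      cases b <;> cases b' <;> simp_all
    subst this
    exact hT.L d hd.1 (hd.2.trans hd'.2.symm)
  have hsub : (G.st (G.vt d₀)).image Prod.fst ⊆ ea G τ i := by
    intro e he
    rw [Finset.mem_image] at he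
    obtain ⟨d, hd, rfl⟩ := he
    simp only [Gr.st, Finset.mem_filter, Finset.mem_product, Finset.mem_univ, and_true] at hd
    rw [mem_ea]
    refine ⟨hd.1, d.2, ?_⟩
    rw [show ((d.1, d.2) : Dart E) = d from rfl, hd.2, h1]
  calc 3 ≤ (G.st (G.vt d₀)).card := h3
    _ = ((G.st (G.vt d₀)).image Prod.fst).card := (Finset.card_image_of_injOn hinj).symm
    _ ≤ _ := Finset.card_le_card hsub

theorem ea_card2 (hT : Tr G τ) (hD : Deg3 G) {i j : Fin N} (hij : i ≠ j) :
    5 ≤ (ea G τ i ∪ ea G τ j).card := by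
  have h1 := ea_card hT hD i
  have h2 := ea_card hT hD j
  have h3 := ea_cap hT hij
  have h4 := Finset.card_union_add_card_inter (ea G τ i) (ea G τ j)
  omega

theorem adj_iff {i j : Fin N} : (sg G τ).Adj i j ↔ i ≠ j ∧ ∃ d : Dart E, d.1 ∈ G.X ∧
    τ (G.vt d) = i ∧ τ (G.vt (rv d)) = j := Iff.rfl

/-- edges with an end in `K` -/
def eK (G : Gr V E) (τ : V → Fin N) (K : Finset (Fin N)) : Finset E :=
  G.X.filter fun e => ∃ b : Bool, τ (G.vt (e, b)) ∈ K

theorem ea_sub_eK {K : Finset (Fin N)} {i : Fin N} (hi : i ∈ K) : ea G τ i ⊆ eK G τ K := by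
  intro e he
  obtain ⟨h1, b, hb⟩ := mem_ea.1 he
  simp only [eK, Finset.mem_filter]
  exact ⟨h1, b, by rw [hb]; exact hi⟩

theorem ne_adj (hT : Tr G τ) {d : Dart E} (hd : d.1 ∈ G.X) : τ (G.vt d) ≠ τ (G.vt (rv d)) := by
  intro h
  exact hT.L d hd (hT.inj d (rv d) hd hd h)

theorem mem_vs {A : Finset E} {w : V} : w ∈ G.vs A ↔ ∃ d : Dart E, d.1 ∈ A ∧ G.vt d = w := by
  simp only [Gr.vs, Finset.mem_image, Finset.mem_product, Finset.mem_univ, and_true]

theorem vs_card {A B : Finset E} (hT : Tr G τ) (hA : A ⊆ G.X) (S : Finset (Fin N))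
    (h : ∀ d d' : Dart E, d.1 ∈ A → d'.1 ∈ B → G.vt d = G.vt d' → τ (G.vt d) ∈ S) :
    (G.vs A ∩ G.vs B).card ≤ S.card := by
  apply Finset.card_le_card_of_injOn τ
  · intro w hw
    rw [Finset.mem_coe, Finset.mem_inter, mem_vs, mem_vs] at hw
    obtain ⟨⟨d, hd, hdw⟩, d', hd', hdw'⟩ := hw
    have := h d d' hd hd' (hdw.trans hdw'.symm)
    rw [hdw] at this
    exact this
  · intro w hw w' hw' hww
    rw [Finset.mem_coe, Finset.mem_inter, mem_vs] at hw hw'
    obtain ⟨⟨d, hd, hdw⟩, -⟩ := hw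
    obtain ⟨⟨d', hd', hdw'⟩, -⟩ := hw'
    have := hT.inj d d' (hA hd) (hA hd') (by rw [hdw, hdw']; exact hww)
    rw [hdw, hdw'] at this
    exact this

theorem key (hT : Tr G τ) (hS4 : Sep4 G) (K S : Finset (Fin N)) (hS : S.card ≤ 3)
    (h : ∀ i j, i ∈ K → j ∉ K → (sg G τ).Adj i j → j ∈ S) :
    (eK G τ K).card ≤ S.card ∨ (G.X \ eK G τ K).card ≤ S.card := by
  have hsub : eK G τ K ⊆ G.X := Finset.filter_subset _ _
  have hc : (G.vs (eK G τ K) ∩ G.vs (G.X \ eK G τ K)).card ≤ S.card := by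
    apply vs_card hT hsub
    intro d d' hd hd' hdd
    simp only [eK, Finset.mem_filter] at hd
    rw [Finset.mem_sdiff] at hd'
    have hnK : τ (G.vt d') ∉ K := by
      intro hk
      apply hd'.2
      simp only [eK, Finset.mem_filter]
      exact ⟨hd'.1, d'.2, hk⟩
    rw [← hdd] at hnK
    obtain ⟨hdX, b, hb⟩ := hd
    have hb' : ((d.1, b) : Dart E) = rv d := by
      have : b = !d.2 := by
        by_contra hcon
        have : b = d.2 := by
          cases b <;> cases h2 : d.2 <;> simp_all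
        subst this
        exact hnK hb
      rw [this]
      rfl
    rw [hb'] at hb
    apply h _ _ hb hnK
    rw [adj_iff]
    refine ⟨(ne_adj hT hdX).symm, rv d, hdX, rfl, ?_⟩
    have : rv (rv d) = d := by simp [rv]
    rw [this]
  have hdis : Disjoint (eK G τ K) (G.X \ eK G τ K) := Finset.disjoint_sdiff
  have hun : eK G τ K ∪ (G.X \ eK G τ K) = G.X := Finset.union_sdiff_of_subset hsub
  rcases hS4 _ _ hdis hun (hc.trans hS) with h1 | h1
  · left; omega
  · right; omega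

theorem supp (hT : Tr G τ) (i : Fin N) : i ∈ (sg G τ).support := by
  obtain ⟨d, h0, h1⟩ := hT.sur i
  rw [SimpleGraph.mem_support]
  refine ⟨τ (G.vt (rv d)), ?_⟩
  rw [adj_iff]
  refine ⟨?_, d, h0, h1, rfl⟩
  rw [← h1]
  exact ne_adj hT h0

theorem VS_eq (hT : Tr G τ) : DL.VS (sg G τ) = Finset.univ := by
  ext i
  simp only [DL.VS, Finset.mem_filter, Finset.mem_univ, true_and, iff_true]
  exact supp hT i

/-- no edge at `j` has an end in `K` -/
theorem ea_sub_compl {K : Finset (Fin N)} {j : Fin N} (hj : j ∉ K)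
    (h : ∀ i ∈ K, ¬ (sg G τ).Adj i j) : ea G τ j ⊆ G.X \ eK G τ K := by
  intro e he
  obtain ⟨h1, b, hb⟩ := mem_ea.1 he
  rw [Finset.mem_sdiff]
  refine ⟨h1, ?_⟩
  intro hK
  simp only [eK, Finset.mem_filter] at hK
  obtain ⟨-, b', hb'⟩ := hK
  have hbb : b' = !b := by
    by_contra hcon
    have : b' = b := by
      cases b <;> cases b' <;> simp_all
    subst this
    rw [hb] at hb'
    exact hj hb'
  subst hbb
  apply h _ hb'
  rw [adj_iff]
  refine ⟨?_, (e, !b), h1, rfl, by simpa [rv] using hb⟩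
  intro heq
  rw [heq] at hb'
  exact hj hb'

theorem conn (hT : Tr G τ) (hD : Deg3 G) (hS4 : Sep4 G) (S : Finset (Fin N)) (hS : S.card < 3) :
    DL.ConnOff (sg G τ) S := by
  classical
  intro a haV b hbV haS hbS
  clear haV hbV
  by_contra hcon
  set K : Finset (Fin N) := Finset.univ.filter fun i => (DL.del (sg G τ) S).Reachable a i with hK
  have haK : a ∈ K := by
    simp only [hK, Finset.mem_filter, Finset.mem_univ, true_and]
    exact SimpleGraph.Reachable.refl _
  have hbK : b ∉ K := by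
    simp only [hK, Finset.mem_filter, Finset.mem_univ, true_and]
    exact hcon
  have hKS : ∀ i ∈ K, i ∉ S := by
    intro i hi
    simp only [hK, Finset.mem_filter, Finset.mem_univ, true_and] at hi
    obtain ⟨w⟩ := hi
    clear hcon hbK haK hK
    induction w with
    | nil => exact haS
    | cons h p ih => exact ih (h.2.2)
  have hcl : ∀ i j, i ∈ K → j ∉ K → (sg G τ).Adj i j → j ∈ S := by
    intro i j hi hj hadj
    by_contra hjS
    apply hj
    have hiS := hKS i hi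
    simp only [hK, Finset.mem_filter, Finset.mem_univ, true_and] at hi ⊢
    exact hi.trans (SimpleGraph.Adj.reachable (show (DL.del (sg G τ) S).Adj i j from ⟨hadj, hiS, hjS⟩))
  have h1 : 3 ≤ (eK G τ K).card := (ea_card hT hD a).trans (Finset.card_le_card (ea_sub_eK haK))
  have h2 : 3 ≤ (G.X \ eK G τ K).card := by
    refine (ea_card hT hD b).trans (Finset.card_le_card (ea_sub_compl hbK ?_))
    intro i hi hadj
    exact hbS (hcl i b hi hbK hadj)
  rcases key hT hS4 K S (by omega) hcl with h | h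
  · omega
  · omega

theorem sep (hT : Tr G τ) (hD : Deg3 G) (hS4 : Sep4 G) (S P Q : Finset (Fin N))
    (hS : DL.Sep (sg G τ) S P Q) (h3 : S.card = 3) : P.card ≤ 1 ∨ Q.card ≤ 1 := by
  by_contra hcon
  push Not at hcon
  obtain ⟨hP, hQ⟩ := hcon
  obtain ⟨hun, hSP, hSQ, hPQ, hno⟩ := hS
  rw [VS_eq hT] at hun
  have hcl : ∀ i j, i ∈ P → j ∉ P → (sg G τ).Adj i j → j ∈ S := by
    intro i j hi hj hadj
    have : j ∈ S ∪ P ∪ Q := by rw [hun]; exact Finset.mem_univ _
    rw [Finset.mem_union, Finset.mem_union] at this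
    rcases this with (h | h) | h
    · exact h
    · exact absurd h hj
    · exact absurd hadj (hno i hi j h)
  obtain ⟨p, hp, p', hp', hpp⟩ := Finset.one_lt_card.1 hP
  obtain ⟨q, hq, q', hq', hqq⟩ := Finset.one_lt_card.1 hQ
  have h1 : 5 ≤ (eK G τ P).card := (ea_card2 hT hD hpp).trans
    (Finset.card_le_card (Finset.union_subset (ea_sub_eK hp) (ea_sub_eK hp')))
  have hqP : ∀ x ∈ Q, x ∉ P := fun x hx hx' => Finset.disjoint_left.1 hPQ hx' hx
  have h2 : 5 ≤ (G.X \ eK G τ P).card := (ea_card2 hT hD hqq).trans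
    (Finset.card_le_card (Finset.union_subset
      (ea_sub_compl (hqP q hq) fun i hi => hno i hi q hq)
      (ea_sub_compl (hqP q' hq') fun i hi => hno i hi q' hq')))
  rcases key hT hS4 P S (by omega) hcl with h | h
  · omega
  · omega

theorem handshake (hT : Tr G τ) (hD : Deg3 G) : 3 * N ≤ 2 * G.X.card := by
  have h1 : (G.X ×ˢ (Finset.univ : Finset Bool)).card = G.X.card * 2 := by
    rw [Finset.card_product]
    simp
  have h2 : (G.X ×ˢ (Finset.univ : Finset Bool)).card =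
      ∑ i ∈ (Finset.univ : Finset (Fin N)),
        ((G.X ×ˢ (Finset.univ : Finset Bool)).filter fun d : Dart E => τ (G.vt d) = i).card :=
    Finset.card_eq_sum_card_fiberwise (f := fun d : Dart E => τ (G.vt d)) (fun _ _ => by simp)
  have h3 : ∑ i ∈ (Finset.univ : Finset (Fin N)), 3 ≤ ∑ i ∈ (Finset.univ : Finset (Fin N)),
        ((G.X ×ˢ (Finset.univ : Finset Bool)).filter fun d : Dart E => τ (G.vt d) = i).card := by
    apply Finset.sum_le_sum
    intro i _
    obtain ⟨d₀, h0, h1⟩ := hT.sur i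
    have hne : (G.st (G.vt d₀)).Nonempty := by
      refine ⟨d₀, ?_⟩
      simp [Gr.st, h0]
    refine (hD _ hne).trans (Finset.card_le_card ?_)
    intro d hd
    simp only [Gr.st, Finset.mem_filter] at hd ⊢
    refine ⟨hd.1, ?_⟩
    rw [hd.2, h1]
  simp only [Finset.sum_const, Finset.card_univ, Fintype.card_fin, smul_eq_mul] at h3
  omega

theorem tri (hT : Tr G τ) (hD : Deg3 G) (hS4 : Sep4 G) (hN : 5 ≤ N) (v a b : Fin N)
    (hva : (sg G τ).Adj v a) (hvb : (sg G τ).Adj v b) (hab : (sg G τ).Adj a b) :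
    ∃ c d, (sg G τ).Adj v c ∧ (sg G τ).Adj v d ∧ c ≠ d ∧ c ≠ a ∧ c ≠ b ∧ d ≠ a ∧ d ≠ b := by
  by_contra hcon
  obtain ⟨nva, d1, x1, s1, t1⟩ := adj_iff.1 hva
  obtain ⟨nvb, d2, x2, s2, t2⟩ := adj_iff.1 hvb
  obtain ⟨nab, d3, x3, s3, t3⟩ := adj_iff.1 hab
  -- the third edge at v
  have hcard := ea_card hT hD v
  have hlt : ({d1.1, d2.1} : Finset E).card < (ea G τ v).card :=
    lt_of_le_of_lt (Finset.card_le_two) hcard
  obtain ⟨e, he, hne⟩ := Finset.exists_mem_notMem_of_card_lt_card hlt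
  obtain ⟨d4, rfl, x4, s4⟩ := ea_dart he
  simp only [Finset.mem_insert, Finset.mem_singleton, not_or] at hne
  set c := τ (G.vt (rv d4)) with hc
  have hvc : (sg G τ).Adj v c := adj_iff.2 ⟨by rw [← s4]; exact ne_adj hT x4, d4, x4, s4, rfl⟩
  have uniq : ∀ d d' : Dart E, d.1 ∈ G.X → d'.1 ∈ G.X → τ (G.vt d) = τ (G.vt d') →
      τ (G.vt (rv d)) = τ (G.vt (rv d')) → d.1 = d'.1 := by
    intro d d' hd hd' h1 h2
    exact hT.P d d' hd hd' (hT.inj d d' hd hd' h1) (hT.inj (rv d) (rv d') hd hd' h2)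
  have hca : c ≠ a := by
    intro h
    exact hne.1 (uniq d4 d1 x4 x1 (s4.trans s1.symm) (by rw [t1, ← h]))
  have hcb : c ≠ b := by
    intro h
    exact hne.2 (uniq d4 d2 x4 x2 (s4.trans s2.symm) (by rw [t2, ← h]))
  have nvc : v ≠ c := hvc.1
  -- all edges at v
  have hall : ∀ d : Dart E, d.1 ∈ G.X → τ (G.vt d) = v → d.1 = d1.1 ∨ d.1 = d2.1 ∨ d.1 = d4.1 := by
    intro d hd hdv
    by_contra hn
    push Not at hn
    have hadj : (sg G τ).Adj v (τ (G.vt (rv d))) :=
      adj_iff.2 ⟨by rw [← hdv]; exact ne_adj hT hd, d, hd, hdv, rfl⟩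
    apply hcon
    refine ⟨c, τ (G.vt (rv d)), hvc, hadj, ?_, hca, hcb, ?_, ?_⟩
    · intro h
      exact hn.2.2 (uniq d d4 hd x4 (hdv.trans s4.symm) h.symm)
    · intro h
      exact hn.1 (uniq d d1 hd x1 (hdv.trans s1.symm) (h.trans t1.symm))
    · intro h
      exact hn.2.1 (uniq d d2 hd x2 (hdv.trans s2.symm) (h.trans t2.symm))
  have h12 : d1.1 ≠ d2.1 := by
    intro h
    have hh : d2 = d1 ∨ d2 = rv d1 := by
      obtain ⟨e1, b1⟩ := d1
      obtain ⟨e2, b2⟩ := d2
      simp only at h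
      subst h
      cases b1 <;> cases b2 <;> simp [rv]
    rcases hh with hh | hh
    · subst hh
      exact nab (t1.symm.trans t2)
    · subst hh
      exact nva (s2.symm.trans t1)
  have h13 : d3.1 ∉ ea G τ v := by
    intro h
    obtain ⟨-, b', hb'⟩ := mem_ea.1 h
    have hh : ((d3.1, b') : Dart E) = d3 ∨ ((d3.1, b') : Dart E) = rv d3 := by
      obtain ⟨e3, b3⟩ := d3
      cases b3 <;> cases b' <;> simp [rv]
    rcases hh with hh | hh
    · rw [hh] at hb'
      exact nva (hb'.symm.trans s3)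
    · rw [hh] at hb'
      exact nvb (hb'.symm.trans t3)
  have m1 : d1.1 ∈ ea G τ v := mem_ea.2 ⟨x1, d1.2, s1⟩
  have m2 : d2.1 ∈ ea G τ v := mem_ea.2 ⟨x2, d2.2, s2⟩
  have m4 : d4.1 ∈ ea G τ v := mem_ea.2 ⟨x4, d4.2, s4⟩
  have hA4 : ({d1.1, d2.1, d4.1, d3.1} : Finset E).card = 4 := by
    rw [Finset.card_insert_of_notMem, Finset.card_insert_of_notMem, Finset.card_insert_of_notMem,
      Finset.card_singleton]
    · simp only [Finset.mem_singleton]
      intro h
      exact h13 (h ▸ m4)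
    · simp only [Finset.mem_insert, Finset.mem_singleton, not_or]
      exact ⟨fun h => hne.2 h.symm, fun h => h13 (h ▸ m2)⟩
    · simp only [Finset.mem_insert, Finset.mem_singleton, not_or]
      exact ⟨h12, fun h => hne.1 h.symm, fun h => h13 (h ▸ m1)⟩
  set A : Finset E := {d1.1, d2.1, d4.1, d3.1} with hA
  have hsub : A ⊆ G.X := by
    intro x hx
    simp only [hA, Finset.mem_insert, Finset.mem_singleton] at hx
    rcases hx with rfl | rfl | rfl | rfl
    · exact x1
    · exact x2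
    · exact x4
    · exact x3
  have hc3 : (G.vs A ∩ G.vs (G.X \ A)).card ≤ ({a, b, c} : Finset (Fin N)).card := by
    apply vs_card hT hsub
    intro d d' hd hd' hdd
    rw [Finset.mem_sdiff] at hd'
    have hnv : τ (G.vt d) ≠ v := by
      intro h
      rw [hdd] at h
      apply hd'.2
      simp only [hA, Finset.mem_insert, Finset.mem_singleton]
      rcases hall d' hd'.1 h with h | h | h
      · exact Or.inl h
      · exact Or.inr (Or.inl h)
      · exact Or.inr (Or.inr (Or.inl h))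
    have hdd' : ∀ d5 : Dart E, d.1 = d5.1 → d = d5 ∨ d = rv d5 := by
      intro d5 h
      obtain ⟨e1, b1⟩ := d
      obtain ⟨e2, b2⟩ := d5
      simp only at h
      subst h
      cases b1 <;> cases b2 <;> simp [rv]
    simp only [hA, Finset.mem_insert, Finset.mem_singleton] at hd
    simp only [Finset.mem_insert, Finset.mem_singleton]
    rcases hd with h | h | h | h
    · rcases hdd' d1 h with rfl | rfl
      · exact absurd s1 hnv
      · exact Or.inl t1
    · rcases hdd' d2 h with rfl | rfl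
      · exact absurd s2 hnv
      · exact Or.inr (Or.inl t2)
    · rcases hdd' d4 h with rfl | rfl
      · exact absurd s4 hnv
      · exact Or.inr (Or.inr rfl)
    · rcases hdd' d3 h with rfl | rfl
      · exact Or.inl s3
      · exact Or.inr (Or.inl t3)
  have hle3 : ({a, b, c} : Finset (Fin N)).card ≤ 3 := Finset.card_le_three
  have hhs := handshake hT hD
  have hBc : (G.X \ A).card = G.X.card - 4 := by
    rw [Finset.card_sdiff_of_subset hsub, hA4]
  rcases hS4 A (G.X \ A) Finset.disjoint_sdiff (Finset.union_sdiff_of_subset hsub) (hc3.trans hle3)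
    with h | h
  · omega
  · omega

end BRKM

/-- **BRK** -/
theorem specBRK : SpecBRK := by
  intro V E _ _ N G τ hT hD hS4 hN
  refine ⟨⟨?_, ?_⟩, ?_, ?_⟩
  · rw [BRKM.VS_eq hT, Finset.card_univ, Fintype.card_fin]
    omega
  · intro S hS
    exact BRKM.conn hT hD hS4 S hS
  · intro S P Q hS h3
    exact BRKM.sep hT hD hS4 S P Q hS h3
  · intro v a b h1 h2 h3
    exact BRKM.tri hT hD hS4 hN v a b h1 h2 h3

end Pool.Agent.Lib.MP3ff0f8.BR
end

section
/-!
# MP_3ff0f8_gt, bridge, module BRP: paths of a subgraph of `sg G τ` give chains of darts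
-/
namespace Pool.Agent.Lib.MP3ff0f8.BR

open Pool.Agent.Lib.MP3ff0f8.T Finset

namespace BRPM

theorem walk (hA : SpecBRA) {V E : Type} {N : ℕ} {G : Gr V E} {τ : V → Fin N} (h : Tr G τ)
    (T : SimpleGraph (Fin N)) (hT : T ≤ sg G τ) {s t : Fin N} (w : T.Walk s t) :
    ∀ d₀ : Dart E, d₀.1 ∈ G.X → τ (G.vt d₀) = s →
    ∃ (L : List (Dart E)) (b : V), τ b = t ∧ Ch G (G.vt d₀) L b ∧
      (cvs G (G.vt d₀) L).map τ = w.support ∧ L.map (fun d => ed G τ d.1) = w.edges ∧
      ∃ d₁ : Dart E, d₁.1 ∈ G.X ∧ G.vt d₁ = b := by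
  induction w with
  | nil =>
    intro d₀ hd₀ hs
    exact ⟨[], G.vt d₀, hs, rfl, by simp [cvs, hs], rfl, d₀, hd₀, rfl⟩
  | @cons u v t hadj p ih =>
    intro d₀ hd₀ hs
    obtain ⟨_, d, hd, h1, h2⟩ := hT hadj
    have hv : G.vt d = G.vt d₀ := h.inj d d₀ hd hd₀ (by rw [h1, hs])
    obtain ⟨L, b, hb, hc, hm, he, d₁, hd₁⟩ := ih (rv d) hd h2
    refine ⟨d :: L, b, hb, ⟨hd, hv, hc⟩, ?_, ?_, d₁, hd₁⟩
    · rw [SimpleGraph.Walk.support_cons, ← hm]
      simp [cvs, hs]
    · rw [SimpleGraph.Walk.edges_cons, ← he, List.map_cons, hA.edd h d, h1, h2]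

end BRPM

theorem specBRP (hA : SpecBRA) : SpecBRP := by
  intro V E _ N G τ h T hT s t w hw d₀ hd₀ hs
  obtain ⟨L, b, hb, hc, hm, he, d₁, hd₁⟩ := BRPM.walk hA h T hT w d₀ hd₀ hs
  have he' : (L.map Prod.fst).map (ed G τ) = w.edges := by rw [← he, List.map_map]; rfl
  refine ⟨L, b, hb, hc, ?_, ?_, ?_, hm, ?_, d₁, hd₁⟩
  · refine List.Nodup.of_map τ ?_
    rw [hm]
    exact hw.support_nodup
  · refine List.Nodup.of_map (ed G τ) ?_
    rw [he']
    exact hw.isTrail.edges_nodup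
  · unfold es
    rw [← he']
    ext z
    simp
  · intro d hd
    refine w.edges_subset_edgeSet ?_
    rw [← he]
    exact List.mem_map.2 ⟨d, hd, rfl⟩

end Pool.Agent.Lib.MP3ff0f8.BR
end

section
/-!
# Module BRS: at most four vertices
-/
namespace Pool.Agent.Lib.MP3ff0f8.BR

open Pool.Agent.Lib.MP3ff0f8.T Finset

namespace BRSM

/-- the cochain, on numbers -/
def rho (v a b : ℕ) : ZMod 2 := if v = 1 ∧ (a = 0 ∧ b = 2 ∨ a = 2 ∧ b = 0) then 1 else 0

theorem check : ∀ a b c d : Fin 4, (a ≠ b ∧ a ≠ c ∧ a ≠ d ∧ b ≠ c ∧ b ≠ d ∧ c ≠ d) →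
    (rho d.val a.val b.val + rho c.val a.val b.val) + (rho b.val c.val d.val + rho a.val c.val d.val) =
      ((if b.val < d.val then (1 : ZMod 2) else 0) + (if b.val < c.val then (1 : ZMod 2) else 0)) +
      ((if a.val < d.val then (1 : ZMod 2) else 0) + (if a.val < c.val then (1 : ZMod 2) else 0)) := by
  decide

theorem check' (N : ℕ) (hN : N ≤ 4) (a b c d : Fin N) (h1 : a ≠ b) (h2 : a ≠ c) (h3 : a ≠ d)
    (h4 : b ≠ c) (h5 : b ≠ d) (h6 : c ≠ d) :
    (rho d.val a.val b.val + rho c.val a.val b.val) + (rho b.val c.val d.val + rho a.val c.val d.val) =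
      ((if b.val < d.val then 1 else 0) + (if b.val < c.val then 1 else 0)) +
      ((if a.val < d.val then 1 else 0) + (if a.val < c.val then (1 : ZMod 2) else 0)) := by
  have hinj := Fin.castLE_injective hN
  exact check (Fin.castLE hN a) (Fin.castLE hN b) (Fin.castLE hN c) (Fin.castLE hN d)
    ⟨hinj.ne h1, hinj.ne h2, hinj.ne h3, hinj.ne h4, hinj.ne h5, hinj.ne h6⟩

end BRSM

open BRSM in
theorem specBRS : SpecBRS := by
  intro V E _ _ N G τ hT _ hN
  refine ⟨fun v => ((τ v).val : ℝ), fun v e => rho (τ v).val (τ (G.vt (e, false))).val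
    (τ (G.vt (e, true))).val, ?_, ?_⟩
  · intro d d' hd hd' h
    refine hT.inj d d' hd hd' ?_
    have h2 : (τ (G.vt d)).val = (τ (G.vt d')).val := Nat.cast_injective (R := ℝ) h
    exact Fin.ext h2
  · intro e he f hf hdis
    have hne : ∀ d d' : Dart E, d.1 ∈ G.X → d'.1 ∈ G.X → G.vt d ≠ G.vt d' →
        τ (G.vt d) ≠ τ (G.vt d') := fun d d' hd hd' h h2 => h (hT.inj d d' hd hd' h2)
    have hl : ∀ e ∈ G.X, τ (G.vt (e, false)) ≠ τ (G.vt (e, true)) :=
      fun e he => hne (e, false) (e, true) he he (hT.L (e, false) he)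
    have hc := check' N hN (τ (G.vt (e, false))) (τ (G.vt (e, true))) (τ (G.vt (f, false)))
      (τ (G.vt (f, true))) (hl e he) (hne (e, false) (f, false) he hf (hdis _ _))
      (hne (e, false) (f, true) he hf (hdis _ _)) (hne (e, true) (f, false) he hf (hdis _ _))
      (hne (e, true) (f, true) he hf (hdis _ _)) (hl f hf)
    simp only [Fintype.sum_bool, Nat.cast_lt]
    exact hc

end Pool.Agent.Lib.MP3ff0f8.BR
end

section
/-!
# MP_3ff0f8_gt, bridge: module BRU
-/
namespace Pool.Agent.Lib.MP3ff0f8.BR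

open Pool.Agent.Lib.MP3ff0f8.T Finset

namespace BRUM

/-- the edge set of a cycle is recovered from its image -/
theorem filter_es (hBRA : SpecBRA) {V E : Type} [DecidableEq E] {N : ℕ} {G : Gr V E}
    {τ : V → Fin N} (hT : Tr G τ) {c : List (Dart E)} (hc : IsCyc G c) :
    G.X.filter (fun e => ed G τ e ∈ es G τ c) = (c.map Prod.fst).toFinset := by
  ext e
  simp only [mem_filter, es, mem_image, List.mem_toFinset]
  constructor
  · rintro ⟨he, e', he', h⟩
    have h1 : e' ∈ G.X := by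
      obtain ⟨d, hd, rfl⟩ := List.mem_map.1 he'
      exact hc.mem d hd
    rw [← hBRA.edi hT e' h1 e he h]
    exact he'
  · intro he
    refine ⟨?_, e, he, rfl⟩
    obtain ⟨d, hd, rfl⟩ := List.mem_map.1 he
    exact hc.mem d hd

end BRUM

open BRUM in
theorem specBRU (hBRA : SpecBRA) (hBRD : SpecBRD) (hBRI : SpecBRI) : SpecBRU := by
  intro V E _ _ N G τ hT hU φ hφ
  have key : ∀ c, IsCyc G c →
      φ (G.X.filter (fun e => ed G τ e ∈ es G τ c)) = φ ((c.map Prod.fst).toFinset) :=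
    fun c hc => by rw [filter_es hBRA hT hc]
  have h1 : DL.D4even (sg G τ) (fun C => φ (G.X.filter (fun e => ed G τ e ∈ C))) := by
    intro D
    obtain ⟨M, hM, h16⟩ := hBRD hT D
    choose c hc using h16
    rw [← hφ M hM c fun ε => (hc ε).1]
    refine Finset.sum_congr rfl fun ε _ => ?_
    rw [← (hc ε).2]
    exact key _ (hc ε).1.cyc
  obtain ⟨F, hF, h⟩ := hBRI hT _ (hU _ h1)
  exact ⟨F, hF, fun c hc => by rw [← h c hc]; exact (key c hc).symm⟩

end Pool.Agent.Lib.MP3ff0f8.BR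
end

section
/-!
# MP_3ff0f8_gt, bridge, module POL: cubic functions as sums over small subsets
-/
set_option autoImplicit false

open Finset

namespace Pool.Agent.Lib.MP3ff0f8.BR
namespace POLM

/-- Moebius inversion mod 2 -/
theorem moebius {β : Type} [DecidableEq β] (C : Finset β) : ∀ g : Finset β → ZMod 2,
    ∑ S ∈ C.powerset, ∑ R ∈ S.powerset, g R = g C := by
  induction C using Finset.induction_on with
  | empty => intro g; simp
  | insert a C ha ih =>
    intro g
    rw [Finset.sum_powerset_insert ha]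
    have h1 : ∀ S ∈ C.powerset, ∑ R ∈ (insert a S).powerset, g R =
        ∑ R ∈ S.powerset, g R + ∑ R ∈ S.powerset, g (insert a R) := by
      intro S hS
      exact Finset.sum_powerset_insert (fun h => ha (Finset.mem_powerset.1 hS h)) g
    rw [Finset.sum_congr rfl h1, Finset.sum_add_distrib, ← add_assoc, CharTwo.add_self_eq_zero,
      zero_add]
    exact ih (fun R => g (insert a R))

variable {α : Type} [Fintype α] [DecidableEq α]

theorem chi_insert {e : Sym2 α} {R : Finset (Sym2 α)} (he : e ∉ R) :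
    DL.chi (insert e R) = DL.chi R + DL.chi {e} := by
  funext x
  simp only [DL.chi, Pi.add_apply, Finset.mem_insert, Finset.mem_singleton]
  by_cases hx : x = e
  · subst hx
    simp [he]
  · simp [hx]

theorem chi_empty : DL.chi (∅ : Finset (Sym2 α)) = 0 := by
  funext x
  simp [DL.chi]

theorem small (d : ℕ) : ∀ p : DL.Chain α → ZMod 2, DL.DegLE d p →
    ∀ S : Finset (Sym2 α), d + 1 ≤ S.card → ∀ v, ∑ R ∈ S.powerset, p (v + DL.chi R) = 0 := by
  induction d with
  | zero =>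
    intro p hp S hS v
    obtain ⟨e, he⟩ : S.Nonempty := Finset.card_pos.1 (by omega)
    rw [← Finset.insert_erase he, Finset.sum_powerset_insert (Finset.notMem_erase e S),
      ← Finset.sum_add_distrib]
    refine Finset.sum_eq_zero fun R _ => ?_
    rw [hp (v + DL.chi R), hp (v + DL.chi (insert e R)), CharTwo.add_self_eq_zero]
  | succ d ih =>
    intro p hp S hS v
    obtain ⟨e, he⟩ : S.Nonempty := Finset.card_pos.1 (by omega)
    rw [← Finset.insert_erase he, Finset.sum_powerset_insert (Finset.notMem_erase e S),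
      ← Finset.sum_add_distrib]
    have h1 := ih (fun a => p (a + DL.chi {e}) + p a) (hp (DL.chi {e})) (S.erase e)
      (by rw [Finset.card_erase_of_mem he]; omega) v
    rw [← h1]
    refine Finset.sum_congr rfl fun R hR => ?_
    have he' : e ∉ R := fun h => Finset.notMem_erase e S (Finset.mem_powerset.1 hR h)
    rw [chi_insert he', ← add_assoc, add_comm (p (v + DL.chi R))]

end POLM

/-- Module POL. -/
theorem specPOL : SpecPOL := by
  intro α _ _ p hp h0
  refine ⟨fun S => ∑ R ∈ S.powerset, p (DL.chi R), fun C => ?_⟩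
  rw [← POLM.moebius C (fun R => p (DL.chi R))]
  symm
  apply Finset.sum_subset (Finset.filter_subset _ _)
  intro S hS hS'
  rw [Finset.mem_filter, not_and] at hS'
  have h1 := hS' hS
  by_cases h2 : 1 ≤ S.card
  · have h3 : 3 + 1 ≤ S.card := by
      by_contra h
      exact h1 ⟨h2, by omega⟩
    have h4 := POLM.small 3 p hp S h3 0
    simpa using h4
  · have h3 : S = ∅ := Finset.card_eq_zero.1 (by omega)
    subst h3
    simp [POLM.chi_empty, h0]

end Pool.Agent.Lib.MP3ff0f8.BR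
end

section
/-! # Theorem C (algebra half, `DL.TheoremC`) implies the answer to Q1 -/
namespace Pool.Agent.Lib.MP3ff0f8.BR

open Pool.Agent.Lib.MP3ff0f8

/-- the bridge: Theorem C for `SimpleGraph (Fin N)` implies Theorem C for the topological half -/
theorem bridge : SpecBRF := by
  have hBRA : SpecBRA := specBRA
  have hBRP : SpecBRP := specBRP hBRA
  have hBRC : SpecBRC := specBRC hBRA
  have hBRH : SpecBRH := specBRH hBRA
  have hBRD : SpecBRD := specBRD hBRA hBRP T.specTRE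
  have hBRI : SpecBRI := specBRI hBRA hBRC specPOL hBRH
  have hBRU : SpecBRU := specBRU hBRA hBRD hBRI
  exact specBRF hBRA hBRU specBRK specBRS specBRN

/-- Theorem C implies that every `Ia_2 mod 2` graph is `ID_4 mod 2` -/
theorem main (hC : DL.TheoremC) : T.SpecFIN := T.topHalf (bridge hC)

end Pool.Agent.Lib.MP3ff0f8.BR
end

section
/-! # Theorem C (algebra half, `DL.TheoremC`) implies the answer to Q1, both forms -/
namespace Pool.Agent.Lib.MP3ff0f8.BR

open Pool.Agent.Lib.MP3ff0f8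

/-- Theorem C implies that every `Ia_2 mod 2` graph is `ID_4 mod 2`: Polyak-Viro form and Conway form -/
theorem main2 (hC : DL.TheoremC) : T.SpecFIN ∧ T.SpecFIN2 := T.topHalf2 (bridge hC)

end Pool.Agent.Lib.MP3ff0f8.BR
end
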