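import Pool.Agent.DL.Defs
import Pool.Agent.Lib.MP_3ff0f8_gt.T.Spec

/-!
# MP_3ff0f8_gt: the bridge from `DL.TheoremC` (simple graphs on `Fin N`) to `T.SpecC`

Module `XXX` = file `BR/XXX.lean`, theorem `specXXX (hYYY : SpecYYY) … : SpecXXX`, own lemmas in the
namespace `Pool.Agent.Lib.MP3ff0f8.BR.XXXM`.
-/

namespace Pool.Agent.Lib.MP3ff0f8.BR

open Pool.Agent.Lib.MP3ff0f8.T Finset

/-- the simple graph on `Fin N` given by `G` and a numbering `τ` of the vertices -/
def sg {V E : Type} {N : ℕ} (G : Gr V E) (τ : V → Fin N) : SimpleGraph (Fin N) where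
  Adj i j := i ≠ j ∧ ∃ d : Dart E, d.1 ∈ G.X ∧ τ (G.vt d) = i ∧ τ (G.vt (rv d)) = j
  symm := ⟨fun _ _ h => ⟨h.1.symm, by
    obtain ⟨d, h1, h2, h3⟩ := h.2
    exact ⟨rv d, h1, h3, by simpa [rv] using h2⟩⟩⟩
  loopless := ⟨fun _ h => h.1 rfl⟩

/-- the edge of `Fin N` given by an edge of `G` -/
def ed {V E : Type} {N : ℕ} (G : Gr V E) (τ : V → Fin N) (e : E) : Sym2 (Fin N) :=
  s(τ (G.vt (e, false)), τ (G.vt (e, true)))

/-- the edge set of a list of darts -/
def es {V E : Type} [DecidableEq E] {N : ℕ} (G : Gr V E) (τ : V → Fin N) (c : List (Dart E)) :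
    Finset (Sym2 (Fin N)) := (c.map Prod.fst).toFinset.image (ed G τ)

/-- `G` has no loops and parallels and `τ` is a bijection from the vertices of edges to `Fin N` -/
structure Tr {V E : Type} {N : ℕ} (G : Gr V E) (τ : V → Fin N) : Prop where
  L : Loopless G
  P : NoPar G
  inj : ∀ d d' : Dart E, d.1 ∈ G.X → d'.1 ∈ G.X → τ (G.vt d) = τ (G.vt d') → G.vt d = G.vt d'
  sur : ∀ i, ∃ d : Dart E, d.1 ∈ G.X ∧ τ (G.vt d) = i

/-- **BRA** (100 lines).  `ex`: `N = (vs X).card`, `Finset.equivFin`. -/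
structure SpecBRA : Prop where
  ex : ∀ {V E : Type} [DecidableEq V] [DecidableEq E] (G : Gr V E), Loopless G → NoPar G →
    G.X.Nonempty → ∃ (N : ℕ) (τ : V → Fin N), Tr G τ
  edd : ∀ {V E : Type} {N : ℕ} {G : Gr V E} {τ : V → Fin N}, Tr G τ → ∀ d : Dart E,
    ed G τ d.1 = s(τ (G.vt d), τ (G.vt (rv d)))
  edi : ∀ {V E : Type} {N : ℕ} {G : Gr V E} {τ : V → Fin N}, Tr G τ → ∀ e ∈ G.X, ∀ e' ∈ G.X,
    ed G τ e = ed G τ e' → e = e'
  ede : ∀ {V E : Type} {N : ℕ} {G : Gr V E} {τ : V → Fin N}, Tr G τ → ∀ z,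
    z ∈ (sg G τ).edgeSet ↔ ∃ e ∈ G.X, ed G τ e = z
  adj : ∀ {V E : Type} {N : ℕ} {G : Gr V E} {τ : V → Fin N}, Tr G τ → ∀ d : Dart E, d.1 ∈ G.X →
    (sg G τ).Adj (τ (G.vt d)) (τ (G.vt (rv d)))

/-- **BRC** (from BRA; 200 lines).  Cycles of `G` (lists of darts) give cycles of `sg G τ`.  They have at
least three darts (no loops, no parallels).  Build the closed walk by induction along the list. -/
structure SpecBRC : Prop where
  three : ∀ {V E : Type} {N : ℕ} {G : Gr V E} {τ : V → Fin N}, Tr G τ → ∀ c, IsCyc G c → 3 ≤ c.length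
  cyc : ∀ {V E : Type} [DecidableEq E] {N : ℕ} {G : Gr V E} {τ : V → Fin N}, Tr G τ → ∀ c,
    IsCyc G c → DL.IsCyc (sg G τ) (es G τ c)

/-- **BRP** (from BRA; 150 lines).  Paths of a subgraph of `sg G τ` give chains of darts.  Induction on the
walk: an edge `i j` of `T ≤ sg G τ` comes from a dart `d` with `τ (vt d) = i`, `τ (vt (rv d)) = j`,
and `vt d` is the given vertex `a` by `inj`. -/
def SpecBRP : Prop := ∀ {V E : Type} [DecidableEq E] {N : ℕ} {G : Gr V E} {τ : V → Fin N}, Tr G τ →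
  ∀ (T : SimpleGraph (Fin N)), T ≤ sg G τ → ∀ (s t : Fin N) (w : T.Walk s t), w.IsPath →
  ∀ d₀ : Dart E, d₀.1 ∈ G.X → τ (G.vt d₀) = s →
  ∃ (L : List (Dart E)) (b : V), τ b = t ∧ Ch G (G.vt d₀) L b ∧ (cvs G (G.vt d₀) L).Nodup ∧
    (L.map Prod.fst).Nodup ∧ es G τ L = w.edges.toFinset ∧ (cvs G (G.vt d₀) L).map τ = w.support ∧
    (∀ d ∈ L, ed G τ d.1 ∈ T.edgeSet) ∧ ∃ d₁ : Dart E, d₁.1 ∈ G.X ∧ G.vt d₁ = b

/-- **BRD** (from BRA, BRP, TRE; 350 lines).  A `D₄` minor of `sg G τ` gives one of `G`, with the same 16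
cycles.  `B i` = the vertices `v` of edges of `G` with `τ v ∈ D.X i` (as the image of a filter of the darts of
`X`), `T i = {e ∈ X : ed e ∈ (D.T i).edgeSet}`, `bd i b` = the dart from `τ⁻¹ (D.p i b)` to
`τ⁻¹ (D.q i b)`.  `ends`: `D.inX`.  `conn`: let `S ⊂ B i` be nonempty and proper, `a ∈ S`, `b ∈ B i \ S`;
a walk of `D.T i` from `τ a` to `τ b` leaves `S` somewhere.  `card`: `≤` is `TRE.le`; `≥`: the graph
`D.T i` is acyclic, so `(T i).card + 1 ≤ (B i).card` (e.g. the induced graph on `D.X i` is a tree,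
`SimpleGraph.IsTree.card_edgeFinset`).  The cycle for `ε`: `c = bd 0 (ε 0) :: (L₁ ++ bd 1 (ε 1) :: (L₂ ++ bd
2 (ε 2) :: (L₃ ++ bd 3 (ε 3) :: L₀)))`, `L_{i+1}` = the chain of BRP for the path of `D.T (i + 1)`
from `D.q i (ε i)` to `D.p (i + 1) (ε (i + 1))` chosen in `DL.tp` (`DL.IsPth`: a walk which is a path with
this edge set; it exists by `D.conn`). -/
def SpecBRD : Prop := ∀ {V E : Type} [DecidableEq V] [DecidableEq E] {N : ℕ} {G : Gr V E}
  {τ : V → Fin N}, Tr G τ → ∀ D : DL.D4M (sg G τ), ∃ M : D4M V E, IsD4 G M ∧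
    ∀ ε : Fin 4 → Bool, ∃ c, IsCe G M ε c ∧ es G τ c = D.cyc ε

/-- **POL** (120 lines).  A function of degree at most 3 on the edge vectors which vanishes at `0`, on
characteristic vectors: put `m S = ∑_{R ⊆ S} p (chi R)`; then `p (chi C) = ∑_{S ⊆ C} m S` (Moebius
inversion mod 2), `m ∅ = 0`, and `m S = 0` for `4 ≤ S.card`, because for `e ∉ S` `∑_{R ⊆ insert e S} p (chi
R) = ∑_{R ⊆ S} (p (chi R + chi {e}) + p (chi R))` is the corresponding sum for the difference of `p`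
in the direction `chi {e}` (induction on the degree). -/
def SpecPOL : Prop := ∀ {α : Type} [Fintype α] [DecidableEq α] (p : DL.Chain α → ZMod 2),
  DL.DegLE 3 p → p 0 = 0 → ∃ m : Finset (Sym2 α) → ZMod 2, ∀ C : Finset (Sym2 α),
    p (DL.chi C) = ∑ S ∈ C.powerset.filter (fun S => 1 ≤ S.card ∧ S.card ≤ 3), m S

/-- **BRH** (from BRA, BRC; 200 lines).  Coherence.  For a cycle `c` of `G` and darts `s`, `t` of different
edges on `c` (after rotation and reversal `c = s :: (c₁ ++ t' :: c₂)`, `t' = t` or `t' = rv t`): without the two edges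
the cycle consists of the two chains `c₁` (from the end of `s` to the start of `t'`) and `c₂`, which are
vertex-disjoint; so the end of `s` reaches the start of `t` iff `t' = t` (if `t' = rv t` the start of
`t` is the end of `t'`, on the other chain).  If one of the edges is not on `c`, both sides are `0`. -/
structure SpecBRH : Prop where
  coh : ∀ {V E : Type} [DecidableEq E] {N : ℕ} {G : Gr V E} {τ : V → Fin N}, Tr G τ → ∀ c,
    IsCyc G c → ∀ s t : Dart E, s.1 ∈ G.X → t.1 ∈ G.X → s.1 ≠ t.1 →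
    DL.coh (τ (G.vt s)) (τ (G.vt (rv s))) (τ (G.vt t)) (τ (G.vt (rv t))) (es G τ c) = cc s t c
  eq1 : ∀ {V E : Type} [DecidableEq E] {N : ℕ} {G : Gr V E} {τ : V → Fin N}, Tr G τ → ∀ c,
    IsCyc G c → ∀ s : Dart E, s.1 ∈ G.X →
    DL.coh (τ (G.vt s)) (τ (G.vt (rv s))) (τ (G.vt s)) (τ (G.vt (rv s))) (es G τ c) = xe s.1 c
  eq2 : ∀ {V E : Type} [DecidableEq E] {N : ℕ} {G : Gr V E} {τ : V → Fin N}, Tr G τ → ∀ c,
    IsCyc G c → ∀ s : Dart E, s.1 ∈ G.X →
    DL.coh (τ (G.vt s)) (τ (G.vt (rv s))) (τ (G.vt (rv s))) (τ (G.vt s)) (es G τ c) = xe s.1 c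

/-- **BRI** (from BRA, BRC, POL, BRH; 200 lines).  `DL.InF` gives `InF`.  The polynomial part: `es G τ c ⊆
X.image ed`, and for `S = {ed e₁, …, ed e_k}`, `1 ≤ k ≤ 3`, `[S ⊆ es G τ c] = xe e₁ c ⋯ xe e_k c` (a product
of three factors, with repetitions).  The coherence part: `coh a b c d C = 0` if `s(a, b)` or `s(c, d)` is
not an edge of `sg G τ`, otherwise BRH. -/
def SpecBRI : Prop := ∀ {V E : Type} [DecidableEq V] [DecidableEq E] {N : ℕ} {G : Gr V E}
  {τ : V → Fin N}, Tr G τ → ∀ f : Finset (Sym2 (Fin N)) → ZMod 2, DL.InF (sg G τ) f →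
  InF G (fun c => f (es G τ c))

/-- **BRU** (from BRA, BRD, BRI; 80 lines).  For `φ` on `Finset E` put `f C = φ (X.filter (ed · ∈ C))`; `f
(es c) = φ (edge set of c)` for cycles `c` of `G`. -/
def SpecBRU : Prop := ∀ {V E : Type} [DecidableEq V] [DecidableEq E] {N : ℕ} {G : Gr V E}
  {τ : V → Fin N}, Tr G τ → DL.U (sg G τ) → Ug G

/-- **BRK** (from BRA; 350 lines).  Connectivity.  All vertices are in the support, every vertex has at least
three neighbours.  (1) `KConn 3`: let `S` have at most two elements and `a, b ∉ S` not reachable from each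
other in `del (sg G τ) S`; `K` = the vertices reachable from `a`, `A` = the edges with an end in `K`, `B` = the
others: `vs A ∩ vs B ⊆ S`, `A.card ≥ 3` (edges at `a`), `B.card ≥ 3` (edges at `b`), against `Sep4`.
(2) `Sep S P Q`, `S.card = 3`, `P` and `Q` with at least two elements: `A` = the edges with an end in `P`:
at least `3 + 3 - 1 = 5` edges, `B` = the others, at least 5 (ends in `Q`), `vs A ∩ vs B ⊆ S`, against
`Sep4`.  (3) `v a`, `v b`, `a b` edges and `v` of degree 3, third neighbour `c`: `A = {va, vb, vc, ab}`,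
`B` the others: `vs A ∩ vs B ⊆ {a, b, c}`, and `2 X.card ≥ 3 N ≥ 15` gives `B.card ≥ 8 - 4 > 3`, against
`Sep4`.  (`τ` and its inverse transport the sets.) -/
def SpecBRK : Prop := ∀ {V E : Type} [DecidableEq V] [DecidableEq E] {N : ℕ} {G : Gr V E}
  {τ : V → Fin N}, Tr G τ → Deg3 G → Sep4 G → 5 ≤ N → DL.I4C (sg G τ)

/-- **BRS** (150 lines).  At most four vertices: `Deg3` and no loops and parallels give `N = 4`.  `APl`:
`x v = τ v`, `ρ v e = 1` iff `τ v = 1` and `ed e = s(0, 2)`; the equation for edges with ends `i, j` and `k,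
l`, all different in `Fin 4`, is a finite check. -/
def SpecBRS : Prop := ∀ {V E : Type} [DecidableEq V] [DecidableEq E] {N : ℕ} {G : Gr V E}
  {τ : V → Fin N}, Tr G τ → Deg3 G → N ≤ 4 → APl G

/-- **BRN** (from BRA; 250 lines).  Duality.  Assume `vk r z = 0` for all `z` with `IsZ2 (sg G τ) z`, `r i =
i`.  Consider the space of the functions `y` on the pairs `(e, f)`, `e < f` vertex-disjoint edges of
`sg G τ` (or the symmetric functions with this support), the functionals `L (v, e) : z ↦ ∑_{f ∋ v} z e f`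
for `v ∉ e`, `e` an edge; `IsZ2` = the intersection of their kernels, so
`vk` is a combination `∑ ρ' (v, e) L (v, e)` (`mem_span_of_iInf_ker_le_ker`).  Evaluate at the `z`
supported on `(e, f), (f, e)`: `ilv(e, f) = ∑_{v ∈ f} ρ' (v, e) + ∑_{v ∈ e} ρ' (v, f)`, where `vk` of this
`z` is `1` iff the ends interleave, which is the right side in `APl` for `x v = τ v`, `ρ v e = ρ' (τ v, ed
e)` (finite check of the order of four different numbers). -/
def SpecBRN : Prop := ∀ {V E : Type} [DecidableEq V] [DecidableEq E] {N : ℕ} {G : Gr V E}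
  {τ : V → Fin N}, Tr G τ → ¬ APl G → DL.NP (sg G τ)

/-- **BRF** (from BRA, BRU, BRK, BRS, BRN; 50 lines) -/
def SpecBRF : Prop := DL.TheoremC → SpecC

end Pool.Agent.Lib.MP3ff0f8.BR
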